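import Pool.Agent.H.MP_1b807b_an.C.Phi
import Pool.Agent.H.MP_1b807b_an.C.GGlow
import Pool.Agent.H.MP_1b807b_an.C.BallK

/-! MP_1b807b_an, planar domains, module GapP: numerical facts about Bessel functions -/

set_option autoImplicit false

namespace Pool.Agent.RP

open MeasureTheory Metric Set Filter
open Pool.Agent.RC Pool.Agent.H.MP_1b807b_an
open scoped Topology

/-- the gap in the web inequality, uniformly in the cut -/
theorem gap_ge {k₁ k σ : ℝ} (hσ : 0 ≤ σ) (hσ1 : σ < 1) (hk : 0 < k) (hkk : k ≤ k₁) :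
    1 - (∫ s in (0 : ℝ)..1, rr (k₁ * s)) ≤
      (2 - σ) * rr (k * σ) - ∫ s in σ..1, rr (k * s) := by
  have h1 : (2 - 0) * rr (k * 0) - ∫ s in (0 : ℝ)..1, rr (k * s) ≤
      (2 - σ) * rr (k * σ) - ∫ s in σ..1, rr (k * s) := by
    rw [rr_fun_eq]
    refine hasSum_le (fun n => ?_) (hasSum_phi k 0) (hasSum_phi k σ)
    refine mul_le_mul_of_nonneg_right ?_ (by positivity)
    exact mul_le_mul_of_nonneg_left (cf_mono le_rfl hσ hσ1.le n) (shc_bb_pos n).le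
  have h2 : rr (k * 0) = 1 / 2 := by
    rw [mul_zero]
    unfold rr
    rw [if_pos rfl]
  have hc : ∀ c : ℝ, Continuous fun s => rr (c * s) := fun c =>
    continuous_rr.comp (continuous_const.mul continuous_id)
  have h3 : ∫ s in (0 : ℝ)..1, rr (k * s) ≤ ∫ s in (0 : ℝ)..1, rr (k₁ * s) := by
    refine intervalIntegral.integral_mono_on zero_le_one ((hc k).intervalIntegrable _ _)
      ((hc k₁).intervalIntegrable _ _) fun s hs => ?_
    exact rr_mono (mul_nonneg hk.le hs.1) (mul_le_mul_of_nonneg_right hkk hs.1)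
  rw [h2] at h1
  linarith

theorem gap_num : ∫ s in (0 : ℝ)..1, rr (9 / 4 * s) ≤ 1 - 7 / 1000 := by
  have hg := hasSum_phi (9 / 4) 0
  have h1 := (hasSum_nat_add_iff' 8).2 hg
  have h2 : HasSum (fun j : ℕ => -(shc bb 8 * ((9 / 4 : ℝ) ^ 2) ^ 8 * (1 / 2) ^ j))
      (-(shc bb 8 * ((9 / 4 : ℝ) ^ 2) ^ 8 * 2)) :=
    (hasSum_geometric_two.mul_left (shc bb 8 * ((9 / 4 : ℝ) ^ 2) ^ 8)).neg
  have h3 := hasSum_le (fun j => ?_) h2 h1
  · have e : ∑ n ∈ Finset.range 8, ca 0 n * ((9 / 4 : ℝ) ^ 2) ^ n = ((sQ 0 ((9 / 4) ^ 2) 8 : ℚ) : ℝ) := by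
      rw [sQ_eq]
      push_cast
      rfl
    have hq : (7 / 1000 : ℚ) + 2 * (aQ 8 * ((9 / 4) ^ 2) ^ 8) ≤ sQ 0 ((9 / 4) ^ 2) 8 := by
      decide +kernel
    have hq2 : ((7 / 1000 : ℚ) : ℝ) + 2 * (((aQ 8 : ℚ) : ℝ) * (((9 / 4 : ℚ) : ℝ) ^ 2) ^ 8) ≤
        ((sQ 0 ((9 / 4) ^ 2) 8 : ℚ) : ℝ) := by
      exact_mod_cast hq
    rw [aQ_eq] at hq2
    push_cast at hq2
    rw [e] at h3
    have h5 : rs (9 / 4 * 0) = 1 / 2 := by rw [mul_zero, rs_zero]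
    rw [h5] at h3
    rw [rr_fun_eq]
    linarith
  · have h4 := tail_term (y := (9 / 4 : ℝ) ^ 2) (by norm_num) 8 (by norm_num) j
    have h5 := cf_ge (le_refl (0 : ℝ)) zero_le_one (j + 8)
    have h6 : 0 ≤ shc bb (j + 8) * ((9 / 4 : ℝ) ^ 2) ^ (j + 8) := by
      have := shc_bb_pos (j + 8)
      positivity
    have h7 : ca 0 (j + 8) * ((9 / 4 : ℝ) ^ 2) ^ (j + 8) =
        (shc bb (j + 8) * ((9 / 4 : ℝ) ^ 2) ^ (j + 8)) * cf 0 (j + 8) := by
      unfold ca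
      ring
    rw [h7]
    nlinarith

theorem shc_le (j : ℕ) : 4 * shc (cc 1) j ≤ cc 1 j := by
  unfold shc
  rw [cc_succ]
  have hc := cc_pos 1 j
  have hj : (0 : ℝ) ≤ j := by positivity
  have e : 4 * (((j : ℝ) + 1) * (cc 1 j / ((2 * j + 2) * (2 * j + (1 : ℕ) + 1)))) =
      cc 1 j / (j + 1) := by
    push_cast
    field_simp
    ring
  rw [e]
  rw [div_le_iff₀ (by positivity)]
  nlinarith

/-- `I₁(k) ≤ (k / 2) I₀(k)` -/
theorem GG_le {k : ℝ} (hk : 0 ≤ k) : GG k ≤ k / 2 := by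
  have hp := V_pos 1 k
  unfold GG F
  rw [div_le_iff₀ hp]
  unfold W V
  have h1 : 4 * ser (shc (cc 1)) (k ^ 2) ≤ ser (cc 1) (k ^ 2) := by
    unfold ser
    rw [← tsum_mul_left]
    refine ((ent_cc 1).shc.summable _).mul_left 4 |>.tsum_le_tsum (fun j => ?_)
      ((ent_cc 1).summable _)
    have h3 : 0 ≤ (k ^ 2) ^ j := by positivity
    calc 4 * (shc (cc 1) j * (k ^ 2) ^ j) = (4 * shc (cc 1) j) * (k ^ 2) ^ j := by ring
      _ ≤ cc 1 j * (k ^ 2) ^ j := mul_le_mul_of_nonneg_right (shc_le j) h3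
  calc 2 * k * ser (shc (cc 1)) (k ^ 2) = k / 2 * (4 * ser (shc (cc 1)) (k ^ 2)) := by ring
    _ ≤ k / 2 * ser (cc 1) (k ^ 2) := mul_le_mul_of_nonneg_left h1 (by positivity)

theorem GG_num : 33 / 20 ≤ (9 / 4 : ℝ) * GG (9 / 4) := by
  have h := GGlow_series (z := (9 / 4 : ℝ) ^ 2) (s := 33 / 20) (by norm_num) (by norm_num)
  have h2 : 0 ≤ ∑ j ∈ Finset.range 8, (2 * (j : ℝ) - 33 / 20) *
      cc 1 j * ((9 / 4 : ℝ) ^ 2) ^ j := by
    simp only [Finset.sum_range_succ, Finset.sum_range_zero, cc]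
    norm_num
  have h3 := h2.trans h
  have hp := V_pos 1 (9 / 4)
  unfold GG F
  rw [mul_div_assoc', le_div_iff₀ hp]
  unfold W V
  have e : (9 / 4 : ℝ) * (2 * (9 / 4) * ser (shc (cc 1)) ((9 / 4) ^ 2)) =
      2 * (9 / 4) ^ 2 * ser (shc (cc 1)) ((9 / 4) ^ 2) := by ring
  rw [e]
  linarith

theorem cc_le (j : ℕ) : cc 1 j ≤ (1 / 4) ^ j / (j.factorial : ℝ) := by
  induction j with
  | zero => simp [cc_zero]
  | succ j ih =>
    rw [cc_succ, Nat.factorial_succ]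
    have hj : (0 : ℝ) ≤ j := by positivity
    have hf : (0 : ℝ) < (j.factorial : ℝ) := by exact_mod_cast Nat.factorial_pos j
    have h1 : cc 1 j / ((2 * j + 2) * (2 * j + (1 : ℕ) + 1)) ≤
        ((1 / 4) ^ j / (j.factorial : ℝ)) / ((2 * j + 2) * (2 * j + (1 : ℕ) + 1)) :=
      div_le_div_of_nonneg_right ih (by positivity)
    refine h1.trans ?_
    rw [div_div, div_le_div_iff₀ (by positivity) (by positivity)]
    push_cast
    rw [pow_succ]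
    have h2 : (0 : ℝ) < (1 / 4) ^ j := by positivity
    have h3 : ((j : ℝ) + 1) * (j.factorial : ℝ) ≤
        1 / 4 * ((j.factorial : ℝ) * ((2 * j + 2) * (2 * j + 1 + 1))) := by
      have h4 : 1 / 4 * ((j.factorial : ℝ) * ((2 * j + 2) * (2 * j + 1 + 1))) =
          (((j : ℝ) + 1) * (j.factorial : ℝ)) * (j + 1) := by ring
      rw [h4]
      exact le_mul_of_one_le_right (by positivity) (by linarith)
    calc (1 / 4 : ℝ) ^ j * (((j : ℝ) + 1) * (j.factorial : ℝ)) ≤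
        (1 / 4) ^ j * (1 / 4 * ((j.factorial : ℝ) * ((2 * j + 2) * (2 * j + 1 + 1)))) :=
          mul_le_mul_of_nonneg_left h3 h2.le
      _ = _ := by ring

/-- `I₀(z) ≤ exp (z² / 4)` -/
theorem I0_le_exp (z : ℝ) : I0 z ≤ Real.exp (z ^ 2 / 4) := by
  have h1 : HasSum (fun j : ℕ => (z ^ 2 / 4) ^ j / (j.factorial : ℝ)) (Real.exp (z ^ 2 / 4)) := by
    rw [Real.exp_eq_exp_ℝ]
    exact NormedSpace.expSeries_div_hasSum_exp (z ^ 2 / 4)
  have h2 : HasSum (fun j : ℕ => cc 1 j * (z ^ 2) ^ j) (I0 z) := ((ent_cc 1).summable _).hasSum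
  refine hasSum_le (fun j => ?_) h2 h1
  have h3 : 0 ≤ (z ^ 2) ^ j := by positivity
  calc cc 1 j * (z ^ 2) ^ j ≤ ((1 / 4) ^ j / (j.factorial : ℝ)) * (z ^ 2) ^ j :=
        mul_le_mul_of_nonneg_right (cc_le j) h3
    _ = (z ^ 2 / 4) ^ j / (j.factorial : ℝ) := by
        rw [div_pow, div_pow, one_pow]
        ring

theorem I0_num : I0 (9 / 4) ^ 2 ≤ 14 := by
  have h1 := I0_le_exp (9 / 4)
  have h2 : I0 (9 / 4) ^ 2 ≤ Real.exp ((9 / 4) ^ 2 / 4) ^ 2 :=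
    pow_le_pow_left₀ (I0_pos _).le h1 2
  refine h2.trans ?_
  rw [← Real.exp_nat_mul]
  have h3 : ((2 : ℕ) : ℝ) * ((9 / 4 : ℝ) ^ 2 / 4) = 81 / 32 := by norm_num
  rw [h3]
  have h4 : Real.exp (81 / 32) ≤ Real.exp 1 ^ 3 / Real.exp (15 / 32) := by
    rw [← Real.exp_nat_mul, ← Real.exp_sub]
    refine Real.exp_le_exp.2 ?_
    norm_num
  refine h4.trans ?_
  have h5 := Real.exp_one_lt_d9
  have h6 : (1 + 15 / 32 : ℝ) ≤ Real.exp (15 / 32) := by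
    have := Real.add_one_le_exp (15 / 32 : ℝ)
    linarith
  rw [div_le_iff₀ (Real.exp_pos _)]
  have h7 : Real.exp 1 ^ 3 ≤ 2.7182818286 ^ 3 := pow_le_pow_left₀ (Real.exp_pos _).le h5.le 3
  refine h7.trans ?_
  calc (2.7182818286 : ℝ) ^ 3 ≤ 14 * (1 + 15 / 32) := by norm_num
    _ ≤ 14 * Real.exp (15 / 32) := by linarith

end Pool.Agent.RP
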