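import Pool.Agent.H.MP_1b807b_an.P.MainP
import Pool.Agent.H.MP_1b807b_an.P.GapP
import Pool.Agent.H.MP_1b807b_an.C.Unique

/-! MP_1b807b_an, planar domains, module StabP: stability and uniqueness -/

set_option autoImplicit false

namespace Pool.Agent.RP

open MeasureTheory Metric Set Pool.Agent.RG Pool.Agent.RA Filter
open Pool.Agent.RC (I0 I1 GG rr fW MW I0_pos I0_mono fW_mem fW_lip fW_slope MW_mem measurable_MW
  continuous_fW W0_mono exists_cut exists_k k_mono robin_ball_scale)
open scoped RealInnerProductSpace ENNReal Topology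

variable {D : Domain 2} {S : Set (E 2)} {ℓ r R : ℝ}

/-- the main estimate with the excess of length -/
theorem planar_core_stab (h : Outer D S ℓ r) (hR : 0 < R)
    (hvol : volume.real D.carrier = Real.pi * R ^ 2) {k σ g : ℝ} (hk : 0 < k) (hσ : 0 ≤ σ)
    (hσ1 : σ < 1) (hlen : ℓ / R - 2 * Real.pi = Real.pi * σ ^ 2 / (1 - σ)) (hg : 0 ≤ g)
    (hW : g ≤ (2 - σ) * rr (k * σ) - ∫ s in σ..1, rr (k * s)) :
    D.robin (-(k * GG k / R)) ≤ ((-(k / R) ^ 2 - (k ^ 2 / R * (ℓ - 2 * Real.pi * R) * g +
      k * GG k / R * D.surface.real Sᶜ) / (I0 k ^ 2 * volume.real D.carrier) : ℝ) : EReal) := by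
  have hpi := Real.pi_pos
  have hfin : IsFiniteMeasure (volume.restrict D.carrier) :=
    ⟨by rw [Measure.restrict_apply_univ]; exact D.isBounded.measure_lt_top⟩
  have hfin' := D.isFinite
  have hms : MeasurableSet D.carrier := D.isOpen.measurableSet
  have hmem : ∀ᵐ x ∂(volume.restrict D.carrier), x ∈ D.carrier := ae_restrict_mem hms
  have hI := I0_pos k
  have hE := energy_D h hR hvol hk hσ hσ1 hlen
  have hone : 0 < 1 - σ := by linarith
  have hβ : 0 ≤ k * GG k := by
    have := Pool.Agent.H.MP_1b807b_an.F_pos 1 hk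
    unfold GG
    positivity
  have hℓ : 0 ≤ ℓ - 2 * Real.pi * R := by
    have h1 : 0 ≤ Real.pi * σ ^ 2 / (1 - σ) := by positivity
    rw [← hlen, sub_nonneg, le_div_iff₀ hR] at h1
    linarith
  set A₁ := ∫ x in D.carrier, (MW k σ (infDist x S / R) ^ 2 +
      k ^ 2 * fW k σ (infDist x S / R) ^ 2) with hA₁
  have hE0 : A₁ + k ^ 2 * R * (ℓ - 2 * Real.pi * R) * g / I0 k ^ 2 ≤ k * GG k * (ℓ * R) := by
    have h1 : R ^ 2 * (Real.pi * (k ^ 2 * σ ^ 2) / (1 - σ) *
        ((∫ s in σ..1, rr (k * s)) - (2 - σ) * rr (k * σ))) ≤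
        -(k ^ 2 * R * (ℓ - 2 * Real.pi * R) * g) := by
      have h2 : R ^ 2 * (Real.pi * (k ^ 2 * σ ^ 2) / (1 - σ)) =
          k ^ 2 * R * (ℓ - 2 * Real.pi * R) := by
        have h3 : Real.pi * (k ^ 2 * σ ^ 2) / (1 - σ) = k ^ 2 * (ℓ / R - 2 * Real.pi) := by
          rw [hlen]
          ring
        rw [h3]
        field_simp
      have h4 : 0 ≤ k ^ 2 * R * (ℓ - 2 * Real.pi * R) := by positivity
      calc R ^ 2 * (Real.pi * (k ^ 2 * σ ^ 2) / (1 - σ) *
          ((∫ s in σ..1, rr (k * s)) - (2 - σ) * rr (k * σ))) =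
          (R ^ 2 * (Real.pi * (k ^ 2 * σ ^ 2) / (1 - σ))) *
            ((∫ s in σ..1, rr (k * s)) - (2 - σ) * rr (k * σ)) := by ring
        _ = k ^ 2 * R * (ℓ - 2 * Real.pi * R) *
            ((∫ s in σ..1, rr (k * s)) - (2 - σ) * rr (k * σ)) := by rw [h2]
        _ ≤ k ^ 2 * R * (ℓ - 2 * Real.pi * R) * (-g) :=
            mul_le_mul_of_nonneg_left (by linarith) h4
        _ = _ := by ring
    have h5 : 0 < I0 k ^ 2 := by positivity
    have h6 := hE.trans h1
    have h7 : A₁ - k * GG k * (ℓ * R) ≤ -(k ^ 2 * R * (ℓ - 2 * Real.pi * R) * g) / I0 k ^ 2 := by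
      rw [le_div_iff₀ h5]
      linarith
    rw [neg_div] at h7
    linarith
  set v : E 2 → ℝ := fun x => fW k σ (infDist x S / R) with hv
  have cv : Continuous v := (continuous_fW hσ1.le).comp ((continuous_infDist_pt S).div_const R)
  have hvmem : ∀ x, 1 / I0 k ≤ v x ∧ v x ≤ 1 := fun x => fW_mem hk hσ hσ1.le _
  have hvsq : ∀ x, v x ^ 2 ≤ 1 := fun x =>
    pow_le_one₀ (le_trans (by positivity) (hvmem x).1) (hvmem x).2
  have hvL : ∀ x y, |v x - v y| ≤ k / R * ‖x - y‖ := by
    intro x y
    refine (fW_lip hk hσ hσ1.le _ _).trans ?_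
    have h2 : |infDist x S / R - infDist y S / R| ≤ ‖x - y‖ / R := by
      rw [← sub_div, abs_div, abs_of_pos hR]
      refine div_le_div_of_nonneg_right ?_ hR.le
      have := (lipschitz_infDist_pt S).dist_le_mul x y
      rwa [NNReal.coe_one, one_mul, Real.dist_eq, dist_eq_norm] at this
    calc k * |infDist x S / R - infDist y S / R| ≤ k * (‖x - y‖ / R) :=
          mul_le_mul_of_nonneg_left h2 hk.le
      _ = k / R * ‖x - y‖ := by ring
  have hv1 : ∀ x ∈ S, v x = 1 := by
    intro x hx
    rw [hv]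
    simp only
    rw [infDist_zero_of_mem hx, zero_div]
    unfold fW
    rw [if_pos le_rfl]
  have hv2i : Integrable (fun x => v x ^ 2) (volume.restrict D.carrier) := by
    refine Integrable.of_bound (C := 1) (cv.pow 2).aestronglyMeasurable
      (Filter.Eventually.of_forall fun x => ?_)
    rw [Real.norm_of_nonneg (by positivity)]
    exact hvsq x
  have hvolpos : 0 < volume.real D.carrier := by rw [hvol]; positivity
  set A := ∫ x in D.carrier, v x ^ 2 with hA
  have hpos : 0 < A := by
    have h1 : ∫ x in D.carrier, (1 / I0 k) ^ 2 ≤ ∫ x in D.carrier, v x ^ 2 := by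
      refine integral_mono (integrable_const _) hv2i fun x => ?_
      exact pow_le_pow_left₀ (by positivity) (hvmem x).1 2
    rw [setIntegral_const, smul_eq_mul] at h1
    exact lt_of_lt_of_le (by positivity) h1
  have hAle : A ≤ volume.real D.carrier := by
    have h1 : ∫ x in D.carrier, v x ^ 2 ≤ ∫ x in D.carrier, (1 : ℝ) :=
      integral_mono hv2i (integrable_const _) hvsq
    rw [setIntegral_const, smul_eq_mul, mul_one] at h1
    exact h1
  have hgrad : ∀ x ∈ D.carrier, ‖fderiv ℝ v x‖ ^ 2 ≤ MW k σ (infDist x S / R) ^ 2 / R ^ 2 := by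
    intro x hx
    have h1 := grad_bound h.closed h.ne hR hk hσ hσ1 (h.sub hx)
    rw [← div_pow]
    exact pow_le_pow_left₀ (norm_nonneg _) h1 2
  have hMi : Integrable (fun x => MW k σ (infDist x S / R) ^ 2) (volume.restrict D.carrier) := by
    refine Integrable.of_bound (C := k ^ 2) ?_ (Filter.Eventually.of_forall fun x => ?_)
    · exact (((measurable_MW k σ).comp
        ((continuous_infDist_pt S).div_const R).measurable).pow_const 2).aestronglyMeasurable
    · rw [Real.norm_of_nonneg (by positivity)]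
      have h1 := MW_mem hk hσ hσ1.le (infDist x S / R)
      exact pow_le_pow_left₀ h1.1 h1.2 2
  have hnum : (∫ x in D.carrier, ‖fderiv ℝ v x‖ ^ 2) ≤
      ∫ x in D.carrier, MW k σ (infDist x S / R) ^ 2 / R ^ 2 := by
    refine integral_mono_of_nonneg (Filter.Eventually.of_forall fun x => by positivity)
      (hMi.div_const _) ?_
    filter_upwards [hmem] with x hx
    exact hgrad x hx
  have hsplit : A₁ = (∫ x in D.carrier, MW k σ (infDist x S / R) ^ 2) + k ^ 2 * A := by
    rw [hA₁, integral_add hMi (hv2i.const_mul _), integral_const_mul]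
  have hvsi : Integrable (fun x => v x ^ 2) D.surface := by
    refine Integrable.of_bound (C := 1) (cv.pow 2).aestronglyMeasurable
      (Filter.Eventually.of_forall fun x => ?_)
    rw [Real.norm_of_nonneg (by positivity)]
    exact hvsq x
  have hsurf : ℓ + D.surface.real Sᶜ / I0 k ^ 2 ≤ ∫ x, v x ^ 2 ∂D.surface := by
    have h1 : ∫ x in S, v x ^ 2 ∂D.surface = ℓ := by
      rw [← h.surf, setIntegral_congr_fun h.closed.measurableSet
        (g := fun _ => (1 : ℝ)) (fun x hx => by simp only; rw [hv1 x hx, one_pow])]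
      simp
    have h2 : D.surface.real Sᶜ / I0 k ^ 2 ≤ ∫ x in Sᶜ, v x ^ 2 ∂D.surface := by
      have h3 : ∫ x in Sᶜ, (1 / I0 k) ^ 2 ∂D.surface ≤ ∫ x in Sᶜ, v x ^ 2 ∂D.surface := by
        refine integral_mono (integrable_const _) hvsi.integrableOn fun x => ?_
        exact pow_le_pow_left₀ (by positivity) (hvmem x).1 2
      rw [setIntegral_const, smul_eq_mul] at h3
      refine le_trans (le_of_eq ?_) h3
      rw [div_pow, one_pow]
      ring
    rw [← integral_add_compl h.closed.measurableSet hvsi, h1]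
    linarith
  refine robin_lip D (C := k / R) (by positivity) hvL hpos ?_
  rw [integral_div] at hnum
  rw [hsplit] at hE0
  set e := (k ^ 2 / R * (ℓ - 2 * Real.pi * R) * g +
      k * GG k / R * D.surface.real Sᶜ) / I0 k ^ 2 with he
  have he0 : 0 ≤ e := by
    have : 0 ≤ D.surface.real Sᶜ := measureReal_nonneg
    positivity
  have h7 : (∫ x in D.carrier, MW k σ (infDist x S / R) ^ 2) / R ^ 2 + (k / R) ^ 2 * A +
      k ^ 2 / R * (ℓ - 2 * Real.pi * R) * g / I0 k ^ 2 ≤ k * GG k / R * ℓ := by
    have h8 : (∫ x in D.carrier, MW k σ (infDist x S / R) ^ 2) / R ^ 2 + (k / R) ^ 2 * A +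
      k ^ 2 / R * (ℓ - 2 * Real.pi * R) * g / I0 k ^ 2 =
      ((∫ x in D.carrier, MW k σ (infDist x S / R) ^ 2) + k ^ 2 * A +
        k ^ 2 * R * (ℓ - 2 * Real.pi * R) * g / I0 k ^ 2) / R ^ 2 := by
      field_simp
    rw [h8, div_le_iff₀ (by positivity)]
    refine hE0.trans (le_of_eq ?_)
    field_simp
  have h9 : k * GG k / R * ℓ + k * GG k / R * D.surface.real Sᶜ / I0 k ^ 2 ≤
      k * GG k / R * ∫ x, v x ^ 2 ∂D.surface := by
    have := mul_le_mul_of_nonneg_left hsurf (by positivity : 0 ≤ k * GG k / R)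
    refine le_trans (le_of_eq ?_) this
    ring
  have h10 : e = k ^ 2 / R * (ℓ - 2 * Real.pi * R) * g / I0 k ^ 2 +
      k * GG k / R * D.surface.real Sᶜ / I0 k ^ 2 := by
    rw [he, add_div]
  have h11 : (∫ x in D.carrier, ‖fderiv ℝ v x‖ ^ 2) - k * GG k / R * ∫ x, v x ^ 2 ∂D.surface ≤
      -(k / R) ^ 2 * A - e := by
    rw [h10]
    linarith
  refine h11.trans ?_
  have h12 : (k ^ 2 / R * (ℓ - 2 * Real.pi * R) * g +
      k * GG k / R * D.surface.real Sᶜ) / (I0 k ^ 2 * volume.real D.carrier) =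
      e / volume.real D.carrier := by
    rw [he, div_div]
  rw [h12]
  have h13 : e / volume.real D.carrier * A ≤ e := by
    rw [div_mul_eq_mul_div, div_le_iff₀ hvolpos]
    exact mul_le_mul_of_nonneg_left hAle he0
  linarith

/-- the outer length and the rest of the boundary -/
theorem perimeter_split (h : Outer D S ℓ r) : D.perimeter = ℓ + D.surface.real Sᶜ := by
  have hfin' := D.isFinite
  unfold Domain.perimeter
  rw [← h.surf, measureReal_add_measureReal_compl h.closed.measurableSet]

theorem vol_of_ball {D : Domain 2} (hR : 0 < R)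
    (hvol : volume D.carrier = volume (ball (0 : E 2) R)) :
    volume.real D.carrier = Real.pi * R ^ 2 := by
  rw [Measure.real, hvol, EuclideanSpace.volume_ball_fin_two, ENNReal.toReal_mul,
    ENNReal.toReal_pow, ENNReal.toReal_ofReal hR.le]
  simp [mul_comm, Real.pi_pos.le]

theorem perimeter_disc (hR : 0 < R) :
    (ballDomain 2 (by norm_num) R hR).perimeter = 2 * Real.pi * R := by
  have h := perimeter_ball (n := 2) (by norm_num) hR
  have h2 : volume.real (ball (0 : E 2) R) = Real.pi * R ^ 2 := by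
    rw [Measure.real, EuclideanSpace.volume_ball_fin_two, ENNReal.toReal_mul,
      ENNReal.toReal_pow, ENNReal.toReal_ofReal hR.le]
    simp [mul_comm, Real.pi_pos.le]
  rw [h2] at h
  have h3 : R * (ballDomain 2 (by norm_num) R hR).perimeter = R * (2 * Real.pi * R) := by
    rw [h]
    push_cast
    ring
  exact mul_left_cancel₀ hR.ne' h3

/-- the stability inequality -/
theorem planar_stab (J : JordanBoundary D) (hR : 0 < R)
    (hvol : volume D.carrier = volume (ball (0 : E 2) R)) {α : ℝ} (hα : α < 0)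
    (hα1 : -(33 / 20) / R ≤ α) :
    D.robin α ≤ (ballDomain 2 (by norm_num) R hR).robin α +
      ((α / 1000 * ((D.perimeter - (ballDomain 2 (by norm_num) R hR).perimeter) /
        volume.real D.carrier) : ℝ) : EReal) := by
  have hpi := Real.pi_pos
  obtain ⟨i, hi⟩ := exists_unbdd J
  have hvol' := vol_of_ball hR hvol
  obtain ⟨k, hk, hkβ⟩ := exists_k (β := R * (-α)) (by nlinarith)
  have hkk : k ≤ 9 / 4 := by
    rw [k_mono hk (by norm_num), hkβ]
    rw [div_le_iff₀ hR] at hα1
    linarith [GG_num]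
  obtain ⟨r, h⟩ := exists_outer J hi
  set S := J.comp i with hS
  set ℓ := D.surface.real S with hℓd
  have hL := outer_len h hR hvol'
  have hfin' := D.isFinite
  obtain ⟨σ, hs1, hs2, hs⟩ := exists_cut (a := (ℓ / R - 2 * Real.pi) / Real.pi)
    (le_refl (0 : ℝ)) zero_lt_one (by
      have : 2 * Real.pi ≤ ℓ / R := by
        rw [le_div_iff₀ hR]
        exact hL
      have h2 : 0 ≤ (ℓ / R - 2 * Real.pi) / Real.pi := div_nonneg (by linarith) hpi.le
      simpa using h2)
  have hlen : ℓ / R - 2 * Real.pi = Real.pi * σ ^ 2 / (1 - σ) := by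
    rw [div_eq_iff hpi.ne'] at hs
    rw [hs]
    ring
  have hgap : (7 / 1000 : ℝ) ≤ (2 - σ) * rr (k * σ) - ∫ s in σ..1, rr (k * s) := by
    have h1 := gap_ge hs1 hs2 hk hkk
    have h2 := gap_num
    linarith
  have h1 := planar_core_stab h hR hvol' hk hs1 hs2 hlen (by norm_num : (0 : ℝ) ≤ 7 / 1000) hgap
  have h2 := robin_ball_scale hR hk
  have e : -(k * GG k / R) = α := by
    rw [hkβ]
    field_simp
  rw [e] at h1 h2
  set s := D.surface.real Sᶜ with hsd
  have hs0 : 0 ≤ s := measureReal_nonneg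
  have hP := perimeter_split h
  rw [← hsd] at hP
  have hI := I0_pos k
  have hV : 0 < volume.real D.carrier := by rw [hvol']; positivity
  have hkG : k * GG k / R = -α := by rw [← e]; ring
  have hI14 : I0 k ^ 2 ≤ 14 :=
    (pow_le_pow_left₀ hI.le (I0_mono hk.le (by norm_num : (0 : ℝ) ≤ 9 / 4) hkk) 2).trans I0_num
  have hk2 : 2 * (-α) ≤ k ^ 2 / R := by
    rw [← hkG]
    have := GG_le hk.le
    rw [mul_div_assoc', div_le_div_iff_of_pos_right hR]
    nlinarith
  have hd0 : 0 ≤ ℓ - 2 * Real.pi * R := by linarith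
  have hnum : (-α) * (14 / 1000) * ((ℓ - 2 * Real.pi * R) + s) ≤
      k ^ 2 / R * (ℓ - 2 * Real.pi * R) * (7 / 1000) + k * GG k / R * s := by
    rw [hkG]
    have h3 : 2 * (-α) * (ℓ - 2 * Real.pi * R) ≤ k ^ 2 / R * (ℓ - 2 * Real.pi * R) :=
      mul_le_mul_of_nonneg_right hk2 hd0
    have h4 : 0 ≤ (-α) * s := mul_nonneg (by linarith) hs0
    nlinarith
  have hfrac : (-α) / 1000 * ((D.perimeter - 2 * Real.pi * R) / volume.real D.carrier) ≤
      (k ^ 2 / R * (ℓ - 2 * Real.pi * R) * (7 / 1000) + k * GG k / R * s) /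
        (I0 k ^ 2 * volume.real D.carrier) := by
    rw [le_div_iff₀ (by positivity)]
    have h5 : (-α) / 1000 * ((D.perimeter - 2 * Real.pi * R) / volume.real D.carrier) *
        (I0 k ^ 2 * volume.real D.carrier) =
        (-α) / 1000 * (D.perimeter - 2 * Real.pi * R) * I0 k ^ 2 := by
      field_simp
    rw [h5, hP]
    have h6 : 0 ≤ (-α) / 1000 * (ℓ + s - 2 * Real.pi * R) :=
      mul_nonneg (by linarith) (by linarith)
    calc (-α) / 1000 * (ℓ + s - 2 * Real.pi * R) * I0 k ^ 2 ≤
        (-α) / 1000 * (ℓ + s - 2 * Real.pi * R) * 14 := mul_le_mul_of_nonneg_left hI14 h6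
      _ = (-α) * (14 / 1000) * ((ℓ - 2 * Real.pi * R) + s) := by ring
      _ ≤ _ := hnum
  rw [perimeter_disc hR]
  refine h1.trans ?_
  have h7 : ((-(k / R) ^ 2 - (k ^ 2 / R * (ℓ - 2 * Real.pi * R) * (7 / 1000) +
      k * GG k / R * s) / (I0 k ^ 2 * volume.real D.carrier) : ℝ) : EReal) ≤
      ((-(k / R) ^ 2 : ℝ) : EReal) + ((α / 1000 * ((D.perimeter - 2 * Real.pi * R) /
        volume.real D.carrier) : ℝ) : EReal) := by
    rw [← EReal.coe_add, EReal.coe_le_coe_iff]
    have : α / 1000 * ((D.perimeter - 2 * Real.pi * R) / volume.real D.carrier) =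
        -((-α) / 1000 * ((D.perimeter - 2 * Real.pi * R) / volume.real D.carrier)) := by ring
    rw [this]
    linarith
  refine h7.trans ?_
  gcongr

/-- the isoperimetric inequality -/
theorem planar_perimeter (J : JordanBoundary D) (hR : 0 < R)
    (hvol : volume D.carrier = volume (ball (0 : E 2) R)) :
    (ballDomain 2 (by norm_num) R hR).perimeter ≤ D.perimeter := by
  obtain ⟨i, hi⟩ := exists_unbdd J
  obtain ⟨r, h⟩ := exists_outer J hi
  rw [perimeter_disc hR, perimeter_split h]
  have := outer_len h hR (vol_of_ball hR hvol)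
  have h2 : 0 ≤ D.surface.real (J.comp i)ᶜ := measureReal_nonneg
  linarith

/-- equality in the isoperimetric inequality -/
theorem planar_eq (J : JordanBoundary D) (hR : 0 < R)
    (hvol : volume D.carrier = volume (ball (0 : E 2) R))
    (hP : D.perimeter ≤ (ballDomain 2 (by norm_num) R hR).perimeter) :
    ∃ x₀ : E 2, D.carrier = ball x₀ R := by
  have hpi := Real.pi_pos
  obtain ⟨i, hi⟩ := exists_unbdd J
  obtain ⟨r, h⟩ := exists_outer J hi
  have hfin' := D.isFinite
  have hvol' := vol_of_ball hR hvol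
  set S := J.comp i with hS
  set ℓ := D.surface.real S with hℓd
  have hL := outer_len h hR hvol'
  rw [perimeter_disc hR, perimeter_split h] at hP
  have hs0 : 0 ≤ D.surface.real Sᶜ := measureReal_nonneg
  have hℓ : ℓ = 2 * Real.pi * R := by linarith
  have hs : D.surface.real Sᶜ = 0 := by linarith
  have hle : volume.real D.carrier ≤ volume.real Sᶜ :=
    measureReal_mono h.sub h.bdd.measure_lt_top.ne
  have hv := h.vol
  rw [hvol'] at hle
  rw [hℓ] at hv
  have hrR : r = R := by
    have h1 : Real.pi * (r - R) ^ 2 ≤ 0 := by nlinarith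
    have h2 : (r - R) ^ 2 ≤ 0 := by
      by_contra hc
      push Not at hc
      exact absurd h1 (not_le.2 (mul_pos hpi hc))
    have h3 : r - R = 0 := by
      have := le_antisymm h2 (sq_nonneg _)
      exact pow_eq_zero_iff (two_ne_zero) |>.1 this
    linarith
  subst hrR
  have hSc : volume.real Sᶜ = Real.pi * r ^ 2 := by
    refine le_antisymm ?_ hle
    refine hv.trans (le_of_eq ?_)
    ring
  have hSvol : volume Sᶜ = volume (ball (0 : E 2) r) := by
    rw [← hvol, ← ENNReal.toReal_eq_toReal_iff' h.bdd.measure_lt_top.ne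
      D.isBounded.measure_lt_top.ne]
    show volume.real Sᶜ = volume.real D.carrier
    rw [hSc, hvol']
  obtain ⟨z, hz⟩ := h.att
  obtain ⟨x₀, hx₀⟩ := Pool.Agent.RC.eq_ball_of_discs h.closed.isOpen_compl h.bdd hR hSvol
    (fun s hs0 hsR => ⟨z, fun y hy hyS => by
      have h1 := infDist_le_dist_of_mem (x := z) hyS
      rw [hz] at h1
      rw [mem_closedBall, dist_comm] at hy
      linarith⟩)
  refine ⟨x₀, ?_⟩
  -- no boundary curve inside the disc
  have hfr : frontier D.carrier ∩ Sᶜ = ∅ := by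
    by_contra hne
    obtain ⟨y, hy1, hy2⟩ := nonempty_iff_ne_empty.2 hne
    rw [J.frontier_eq] at hy1
    obtain ⟨j, hj⟩ := mem_iUnion.1 hy1
    obtain ⟨t, ht⟩ := hj
    have hj0 : J.curve j 0 ∈ J.comp j := mem_connectedComponentIn (curve_mem_compl J j 0)
    have hdisj : J.comp j ⊆ Sᶜ := by
      intro w hw hwS
      have h1 : J.comp j = J.comp i := comp_eq J hw hwS
      apply hy2
      rw [hS, ← h1, ← ht]
      exact curve_sub_comp J hj0 (mem_range_self t)
    have h1 : D.surface.real (J.comp j) ≤ D.surface.real Sᶜ := measureReal_mono hdisj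
    rw [surface_comp, hs] at h1
    have h2 : J.len j ≤ J.clen j := by
      classical
      unfold JordanBoundary.clen
      have h3 : J.len j = (if J.curve j 0 ∈ J.comp j then J.len j else 0) := by
        rw [if_pos hj0]
      have h4 := Finset.single_le_sum (f := fun m => if J.curve m 0 ∈ J.comp j then J.len m else 0)
        (s := Finset.univ) (fun m _ => by
          split_ifs
          · exact (J.len_pos m).le
          · exact le_rfl) (Finset.mem_univ j)

      rw [← h3] at h4
      refine h4.trans (le_of_eq ?_)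
      refine Finset.sum_congr rfl fun m _ => ?_
      congr
    have h3 := J.len_pos j
    linarith
  rw [← hx₀]
  refine subset_antisymm h.sub ?_
  have hconn : IsPreconnected Sᶜ := by
    rw [hx₀]
    exact (convex_ball x₀ r).isPreconnected
  refine hconn.subset_of_closure_inter_subset D.isOpen ?_ ?_
  · obtain ⟨y, hy⟩ := D.isConnected.nonempty
    exact ⟨y, h.sub hy, hy⟩
  · rintro y ⟨hy1, hy2⟩
    by_contra hyD
    have : y ∈ frontier D.carrier ∩ Sᶜ := by
      refine ⟨?_, hy2⟩
      rw [D.isOpen.frontier_eq]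
      exact ⟨hy1, hyD⟩
    rw [hfr] at this
    exact this

/-- the theorem on planar domains -/
theorem planar_full (J : JordanBoundary D) (hR : 0 < R)
    (hvol : volume D.carrier = volume (ball (0 : E 2) R)) {α : ℝ} (hα : α < 0)
    (hα1 : -(33 / 20) / R ≤ α) :
    (ballDomain 2 (by norm_num) R hR).perimeter ≤ D.perimeter ∧
    D.robin α ≤ (ballDomain 2 (by norm_num) R hR).robin α +
      ((α / 1000 * ((D.perimeter - (ballDomain 2 (by norm_num) R hR).perimeter) /
        volume.real D.carrier) : ℝ) : EReal) ∧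
    ((ballDomain 2 (by norm_num) R hR).robin α ≤ D.robin α →
      ∃ x₀ : E 2, D.carrier = ball x₀ R) := by
  have h1 := planar_perimeter J hR hvol
  have h2 := planar_stab J hR hvol hα hα1
  refine ⟨h1, h2, fun hge => planar_eq J hR hvol ?_⟩
  obtain ⟨q, hq⟩ := robin_ball_real (n := 2) (by norm_num) hR hα
  rw [hq] at h2 hge
  have h3 := hge.trans h2
  rw [← EReal.coe_add, EReal.coe_le_coe_iff] at h3
  by_contra hc
  push Not at hc
  have hV : 0 < volume.real D.carrier := by
    rw [vol_of_ball hR hvol]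
    have := Real.pi_pos
    positivity
  have h4 : 0 < (D.perimeter - (ballDomain 2 (by norm_num) R hR).perimeter) /
      volume.real D.carrier := div_pos (by linarith) hV
  have h5 : α / 1000 * ((D.perimeter - (ballDomain 2 (by norm_num) R hR).perimeter) /
      volume.real D.carrier) < 0 := mul_neg_of_neg_of_pos (by linarith) h4
  linarith

end Pool.Agent.RP
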