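import Pool.Agent.H.MP_1b807b_an.P.CompS

/-! MP_1b807b_an, planar domains, module DepthP: the inradius and the distribution function of the
distance from the unbounded component of the complement -/

set_option autoImplicit false

namespace Pool.Agent.RP

open MeasureTheory Metric Set Pool.Agent.RG Pool.Agent.RA Filter
open scoped RealInnerProductSpace ENNReal Topology

theorem exists_deepest {S : Set (E 2)} (hb : Bornology.IsBounded Sᶜ) (hne : Sᶜ.Nonempty) :
    ∃ x₀, ∀ x, infDist x S ≤ infDist x₀ S := by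
  have hK : IsCompact (closure Sᶜ) := hb.isCompact_closure
  obtain ⟨x₀, -, hx₀⟩ := hK.exists_isMaxOn hne.closure (continuous_infDist_pt S).continuousOn
  refine ⟨x₀, fun x => ?_⟩
  by_cases hx : x ∈ closure Sᶜ
  · exact hx₀ hx
  · have hxS : x ∈ S := by
      by_contra h
      exact hx (subset_closure h)
    rw [infDist_zero_of_mem hxS]
    exact infDist_nonneg

theorem vol_compl_le {S : Set (E 2)} (hS : IsClosed S) (hSne : S.Nonempty) {ℓ : ℝ} {x₀ : E 2}
    (hx₀ : ∀ x, infDist x S ≤ infDist x₀ S) (hr : 0 < infDist x₀ S)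
    (htube : ∀ t, 0 ≤ t → t < infDist x₀ S →
      volume ({x | infDist x S ≤ t} \ S) + ENNReal.ofReal (Real.pi * t ^ 2) ≤
        ENNReal.ofReal (ℓ * t)) :
    volume Sᶜ + ENNReal.ofReal (Real.pi * infDist x₀ S ^ 2) ≤
      ENNReal.ofReal (ℓ * infDist x₀ S) := by
  set r := infDist x₀ S with hrdef
  set t : ℕ → ℝ := fun n => r - r / ((n : ℝ) + 1) with ht
  have htr : ∀ n, t n < r := fun n => by
    have : 0 < r / ((n : ℝ) + 1) := by positivity
    simp only [ht]
    linarith
  have ht0 : ∀ n, 0 ≤ t n := fun n => by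
    simp only [ht]
    rw [sub_nonneg, div_le_iff₀ (by positivity)]
    have : (0 : ℝ) ≤ n := by positivity
    nlinarith
  have htm : Monotone t := by
    intro m n hmn
    simp only [ht]
    have : (m : ℝ) ≤ n := by exact_mod_cast hmn
    have h1 : r / ((n : ℝ) + 1) ≤ r / ((m : ℝ) + 1) :=
      div_le_div_of_nonneg_left hr.le (by positivity) (by linarith)
    linarith
  have htt : Tendsto t atTop (𝓝 r) := by
    have h1 : Tendsto (fun n : ℕ => r / ((n : ℝ) + 1)) atTop (𝓝 0) :=
      (tendsto_atTop_add_const_right _ _ tendsto_natCast_atTop_atTop).const_div_atTop _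
    have := (tendsto_const_nhds (x := r)).sub h1
    rwa [sub_zero] at this
  set A : ℕ → Set (E 2) := fun n => {x | infDist x S ≤ t n} \ S with hA
  have hAm : Monotone A := fun m n hmn x hx => ⟨(le_trans hx.1 (htm hmn) : infDist x S ≤ t n), hx.2⟩
  have hcov : Sᶜ ⊆ (⋃ n, A n) ∪ {x | infDist x S = r} := by
    intro x hx
    rcases (hx₀ x).lt_or_eq with h | h
    · left
      obtain ⟨n, hn⟩ := (htt.eventually (lt_mem_nhds h)).exists
      exact mem_iUnion.2 ⟨n, (hn.le : infDist x S ≤ t n), hx⟩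
    · right
      exact h
  have h1 : volume Sᶜ ≤ volume (⋃ n, A n) := by
    refine (measure_mono hcov).trans ((measure_union_le _ _).trans ?_)
    rw [level_null hS hSne hr, add_zero]
  refine (add_le_add_left h1 _).trans ?_
  have h2 : Tendsto (fun n => volume (A n) + ENNReal.ofReal (Real.pi * t n ^ 2)) atTop
      (𝓝 (volume (⋃ n, A n) + ENNReal.ofReal (Real.pi * r ^ 2))) :=
    (tendsto_measure_iUnion_atTop hAm).add
      ((ENNReal.continuous_ofReal.tendsto _).comp ((htt.pow 2).const_mul _))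
  have h3 : Tendsto (fun n => ENNReal.ofReal (ℓ * t n)) atTop (𝓝 (ENNReal.ofReal (ℓ * r))) :=
    (ENNReal.continuous_ofReal.tendsto _).comp (htt.const_mul _)
  exact le_of_tendsto_of_tendsto' h2 h3 fun n => htube (t n) (ht0 n) (htr n)

/-- the data of a planar domain with respect to the unbounded component `S` of its complement:
`ℓ` is the length of the outer boundary, `r` the greatest distance from `S` -/
structure Outer (D : Domain 2) (S : Set (E 2)) (ℓ r : ℝ) : Prop where
  closed : IsClosed S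
  ne : S.Nonempty
  sub : D.carrier ⊆ Sᶜ
  surf : D.surface.real S = ℓ
  rpos : 0 < r
  le : ∀ x, infDist x S ≤ r
  att : ∃ x₀, infDist x₀ S = r
  vol : volume.real Sᶜ ≤ ℓ * r - Real.pi * r ^ 2
  bdd : Bornology.IsBounded Sᶜ
  tube : ∀ t, 0 ≤ t → t < r →
    volume.real (D.carrier ∩ {x | infDist x S ≤ t}) ≤ ℓ * t - Real.pi * t ^ 2

theorem exists_outer {D : Domain 2} (J : JordanBoundary D) {i : Fin J.N}
    (hi : ¬ Bornology.IsBounded (J.comp i)) :
    ∃ r, Outer D (J.comp i) (D.surface.real (J.comp i)) r := by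
  set S := J.comp i with hSdef
  have hS : IsClosed S := comp_isClosed J i
  have hSne : S.Nonempty := (comp_conn J i).nonempty
  have hb : Bornology.IsBounded Sᶜ := by
    rcases comp_dich J i with h | h
    · exact absurd h.isBounded hi
    · exact h
  have hsub : D.carrier ⊆ Sᶜ := by
    intro x hx hxS
    exact (connectedComponentIn_subset _ _ hxS) hx
  have hne : Sᶜ.Nonempty := D.isConnected.nonempty.mono hsub
  obtain ⟨x₀, hx₀⟩ := exists_deepest hb hne
  have hr : 0 < infDist x₀ S := by
    obtain ⟨y, hy⟩ := hne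
    exact ((hS.notMem_iff_infDist_pos hSne).1 hy).trans_le (hx₀ y)
  set ℓ := D.surface.real S with hℓ
  set r := infDist x₀ S with hrd
  have hℓ0 : 0 ≤ ℓ := measureReal_nonneg
  have htube : ∀ t, 0 ≤ t → t < r →
      volume ({x | infDist x S ≤ t} \ S) + ENNReal.ofReal (Real.pi * t ^ 2) ≤
        ENNReal.ofReal (ℓ * t) := fun t h0 h1 => tube_comp_unbdd_sharp J hi h0 h1
  have hpi := Real.pi_pos
  have hreal : ∀ (A : Set (E 2)) (t : ℝ), 0 ≤ t → volume A + ENNReal.ofReal (Real.pi * t ^ 2) ≤
        ENNReal.ofReal (ℓ * t) → volume.real A ≤ ℓ * t - Real.pi * t ^ 2 := by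
    intro A t ht h
    have hA : volume A ≠ ⊤ := ne_top_of_le_ne_top ENNReal.ofReal_ne_top (le_self_add.trans h)
    have h2 := ENNReal.toReal_mono ENNReal.ofReal_ne_top h
    rw [ENNReal.toReal_add hA ENNReal.ofReal_ne_top, ENNReal.toReal_ofReal (by positivity),
      ENNReal.toReal_ofReal (by positivity)] at h2
    rw [Measure.real]
    linarith
  refine ⟨r, hS, hSne, hsub, rfl, hr, hx₀, ⟨x₀, rfl⟩, ?_, hb, ?_⟩
  · exact hreal _ _ hr.le (vol_compl_le hS hSne hx₀ hr htube)
  · intro t h0 h1
    have hss : D.carrier ∩ {x | infDist x S ≤ t} ⊆ {x | infDist x S ≤ t} \ S :=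
      fun x hx => ⟨hx.2, hsub hx.1⟩
    refine le_trans (measureReal_mono hss ?_) (hreal _ _ h0 (htube t h0 h1))
    exact ne_top_of_le_ne_top ENNReal.ofReal_ne_top (le_self_add.trans (htube t h0 h1))

end Pool.Agent.RP
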