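import Mathlib

/-! MP_1b807b_an, planar domains, module Cake: a layer cake inequality -/

set_option autoImplicit false

namespace Pool.Agent.RP

open MeasureTheory Set

theorem cake_parts (g g' : ℝ → ℝ) (L T : ℝ) (hg : ∀ t, HasDerivAt g (g' t) t)
    (hg' : Continuous g') :
    g T * (L * T - Real.pi * T ^ 2) + ∫ s in (0 : ℝ)..T, (-g' s) * (L * s - Real.pi * s ^ 2) =
      ∫ t in (0 : ℝ)..T, g t * (L - 2 * Real.pi * t) := by
  have hgc : Continuous g := continuous_iff_continuousAt.2 fun t => (hg t).continuousAt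
  have hq : ∀ t, HasDerivAt (fun t : ℝ => L * t - Real.pi * t ^ 2) (L - 2 * Real.pi * t) t := by
    intro t
    refine (((hasDerivAt_id t).const_mul L).sub ((hasDerivAt_pow 2 t).const_mul Real.pi)).congr_deriv ?_
    norm_num
    ring
  have h := intervalIntegral.integral_mul_deriv_eq_deriv_mul (a := (0 : ℝ)) (b := T)
    (u := g) (u' := g') (v := fun t : ℝ => L * t - Real.pi * t ^ 2)
    (v' := fun t => L - 2 * Real.pi * t) (fun t _ => hg t) (fun t _ => hq t)
    (hg'.intervalIntegrable _ _) (Continuous.intervalIntegrable (by fun_prop) _ _)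
  rw [h]
  simp only [neg_mul, intervalIntegral.integral_neg]
  ring

theorem cake {X : Type*} [MeasurableSpace X] {μ : Measure X} [IsFiniteMeasure μ] {δ : X → ℝ}
    (hδ : Measurable δ) (hδ0 : ∀ x, 0 ≤ δ x) {T L : ℝ} (hT : 0 ≤ T) {g g' : ℝ → ℝ}
    (hg : ∀ t, HasDerivAt g (g' t) t) (hg' : Continuous g') (hneg : ∀ t ∈ Icc 0 T, g' t ≤ 0)
    (hgT : 0 ≤ g T)
    (hν : ∀ t ∈ Icc 0 T, μ.real {x | δ x ≤ t} ≤ L * t - Real.pi * t ^ 2) :
    ∫ x, (if δ x ≤ T then g (δ x) else 0) ∂μ ≤ ∫ t in (0 : ℝ)..T, g t * (L - 2 * Real.pi * t) := by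
  classical
  -- pointwise formula
  have hpt : ∀ x, (if δ x ≤ T then g (δ x) else 0) = (if δ x ≤ T then g T else 0) +
      ∫ s in Ioc 0 T, (-g' s) * (if δ x ≤ s then 1 else 0) := by
    intro x
    by_cases hx : δ x ≤ T
    · rw [if_pos hx, if_pos hx]
      have h1 : ∫ s in Ioc 0 T, (-g' s) * (if δ x ≤ s then 1 else 0) = g (δ x) - g T := by
        have h2 : ∫ s in Ioc 0 T, (-g' s) * (if δ x ≤ s then 1 else 0) =
            ∫ s in Icc (δ x) T, (-g' s) := by
          rw [← integral_Icc_eq_integral_Ioc, ← integral_indicator measurableSet_Icc,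
            ← integral_indicator measurableSet_Icc]
          congr 1
          ext s
          by_cases hs : s ∈ Icc (δ x) T
          · have hs' : s ∈ Icc 0 T := ⟨(hδ0 x).trans hs.1, hs.2⟩
            rw [indicator_of_mem hs, indicator_of_mem hs', if_pos hs.1, mul_one]
          · rw [indicator_of_notMem hs]
            by_cases hs' : s ∈ Icc 0 T
            · rw [indicator_of_mem hs', if_neg (fun h => hs ⟨h, hs'.2⟩), mul_zero]
            · rw [indicator_of_notMem hs']
        rw [h2, integral_Icc_eq_integral_Ioc, ← intervalIntegral.integral_of_le hx,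
          intervalIntegral.integral_neg,
          intervalIntegral.integral_eq_sub_of_hasDerivAt (fun s _ => hg s)
            (hg'.intervalIntegrable _ _)]
        ring
      rw [h1]
      ring
    · rw [if_neg hx, if_neg hx, zero_add]
      symm
      refine setIntegral_eq_zero_of_forall_eq_zero fun s hs => ?_
      rw [if_neg (fun h => hx (h.trans hs.2)), mul_zero]
  have hmS : ∀ s, MeasurableSet {x | δ x ≤ s} := fun s => hδ measurableSet_Iic
  have hbase : Integrable (fun p : X × ℝ => -g' p.2) (μ.prod (volume.restrict (Ioc 0 T))) := by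
    have h1 : Integrable (fun s : ℝ => -g' s) (volume.restrict (Ioc 0 T)) :=
      (hg'.neg.continuousOn.integrableOn_compact isCompact_Icc).mono_set Ioc_subset_Icc_self
    exact h1.comp_snd μ
  have hmeas : Measurable (fun p : X × ℝ => (-g' p.2) * (if δ p.1 ≤ p.2 then (1 : ℝ) else 0)) := by
    refine ((hg'.measurable.comp measurable_snd).neg).mul ?_
    exact Measurable.ite (measurableSet_le (hδ.comp measurable_fst) measurable_snd)
      measurable_const measurable_const
  have hint : Integrable (fun p : X × ℝ => (-g' p.2) * (if δ p.1 ≤ p.2 then (1 : ℝ) else 0))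
      (μ.prod (volume.restrict (Ioc 0 T))) := by
    refine hbase.mono hmeas.aestronglyMeasurable (Filter.Eventually.of_forall fun p => ?_)
    rw [norm_mul]
    refine mul_le_of_le_one_right (norm_nonneg _) ?_
    split_ifs
    · simp
    · simp
  have hi1 : Integrable (fun x => if δ x ≤ T then g T else 0) μ := by
    have : (fun x => if δ x ≤ T then g T else 0) = {x | δ x ≤ T}.indicator fun _ => g T := by
      ext x
      by_cases hx : δ x ≤ T
      · rw [if_pos hx, indicator_of_mem (show x ∈ {x | δ x ≤ T} from hx)]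
      · rw [if_neg hx, indicator_of_notMem (show x ∉ {x | δ x ≤ T} from hx)]
    rw [this]
    exact (integrable_const _).indicator (hmS T)
  have hi2 : Integrable (fun x => ∫ s in Ioc 0 T, (-g' s) * (if δ x ≤ s then (1 : ℝ) else 0)) μ :=
    hint.integral_prod_left
  have hind : ∀ s, ∫ x, (if δ x ≤ s then (1 : ℝ) else 0) ∂μ = μ.real {x | δ x ≤ s} := by
    intro s
    have : (fun x => if δ x ≤ s then (1 : ℝ) else 0) = {x | δ x ≤ s}.indicator 1 := by
      ext x
      by_cases hx : δ x ≤ s
      · rw [if_pos hx, indicator_of_mem (show x ∈ {x | δ x ≤ s} from hx)]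
        rfl
      · rw [if_neg hx, indicator_of_notMem (show x ∉ {x | δ x ≤ s} from hx)]
    rw [this, integral_indicator_one (hmS s)]
  have e1 : ∫ x, (if δ x ≤ T then g T else 0) ∂μ = g T * μ.real {x | δ x ≤ T} := by
    rw [← hind, ← integral_const_mul]
    refine integral_congr_ae (Filter.Eventually.of_forall fun x => ?_)
    simp
  have e2 : ∫ x, (∫ s in Ioc 0 T, (-g' s) * (if δ x ≤ s then (1 : ℝ) else 0)) ∂μ =
      ∫ s in Ioc 0 T, (-g' s) * μ.real {x | δ x ≤ s} := by
    rw [integral_integral_swap hint]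
    refine setIntegral_congr_fun measurableSet_Ioc fun s _ => ?_
    rw [integral_const_mul, hind]
  rw [integral_congr_ae (Filter.Eventually.of_forall hpt), integral_add hi1 hi2, e1, e2,
    ← cake_parts g g' L T hg hg', intervalIntegral.integral_of_le hT]
  refine add_le_add (mul_le_mul_of_nonneg_left (hν T ⟨hT, le_rfl⟩) hgT) ?_
  refine integral_mono_of_nonneg ?_ ?_ ?_
  · refine (ae_restrict_iff' measurableSet_Ioc).2 (Filter.Eventually.of_forall fun s hs => ?_)
    exact mul_nonneg (neg_nonneg.2 (hneg s ⟨hs.1.le, hs.2⟩)) measureReal_nonneg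
  · have hc : Continuous fun s : ℝ => (-g' s) * (L * s - Real.pi * s ^ 2) := by fun_prop
    exact (hc.continuousOn.integrableOn_compact isCompact_Icc).mono_set Ioc_subset_Icc_self
  · refine (ae_restrict_iff' measurableSet_Ioc).2 (Filter.Eventually.of_forall fun s hs => ?_)
    exact mul_le_mul_of_nonneg_left (hν s ⟨hs.1.le, hs.2⟩)
      (neg_nonneg.2 (hneg s ⟨hs.1.le, hs.2⟩))

end Pool.Agent.RP
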