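import Pool.Agent.H.MP_1b807b_an.A.Defs
import Mathlib.MeasureTheory.Covering.Besicovitch
import Mathlib.MeasureTheory.Covering.BesicovitchVectorSpace

/-! MP_1b807b_an, planar domains, module Level: the level sets of the distance from a closed set
are null sets -/

set_option autoImplicit false

namespace Pool.Agent.RP

open MeasureTheory Metric Set Pool.Agent.RG Pool.Agent.RA Filter
open scoped RealInnerProductSpace ENNReal Topology

/-- every ball around a point at distance `r` contains a half as large ball of closer points -/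
theorem level_ball {S : Set (E 2)} (hS : IsClosed S) (hne : S.Nonempty) {r : ℝ} (hr : 0 < r)
    {x : E 2} (hx : infDist x S = r) {ρ : ℝ} (hρ : 0 < ρ) (hρr : ρ ≤ r) :
    ∃ z : E 2, ball z (ρ / 2) ⊆ closedBall x ρ ∧ ∀ y ∈ ball z (ρ / 2), infDist y S < r := by
  obtain ⟨p, hp, hxp⟩ := hS.exists_infDist_eq_dist hne x
  rw [hx] at hxp
  have hn : ‖p - x‖ = r := by rw [← dist_eq_norm, dist_comm, ← hxp]
  refine ⟨x + (ρ / (2 * r)) • (p - x), ?_, ?_⟩
  · intro y hy
    rw [mem_ball, dist_eq_norm] at hy
    rw [mem_closedBall, dist_eq_norm]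
    have h1 : y - x = (y - (x + (ρ / (2 * r)) • (p - x))) + (ρ / (2 * r)) • (p - x) := by abel
    have h2 : ‖(ρ / (2 * r)) • (p - x)‖ = ρ / 2 := by
      rw [norm_smul, hn, Real.norm_of_nonneg (by positivity)]
      field_simp
    rw [h1]
    refine (norm_add_le _ _).trans ?_
    rw [h2]
    linarith
  · intro y hy
    rw [mem_ball, dist_eq_norm] at hy
    refine (infDist_le_dist_of_mem hp).trans_lt ?_
    rw [dist_eq_norm]
    have h1 : y - p = (y - (x + (ρ / (2 * r)) • (p - x))) + (-(1 - ρ / (2 * r))) • (p - x) := by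
      rw [neg_smul, sub_smul, one_smul]
      abel
    have h3 : ρ / (2 * r) ≤ 1 / 2 := by
      rw [div_le_iff₀ (by positivity)]
      linarith
    have h2 : ‖(-(1 - ρ / (2 * r))) • (p - x)‖ = r - ρ / 2 := by
      rw [norm_smul, hn, norm_neg, Real.norm_of_nonneg (by linarith)]
      field_simp
    rw [h1]
    refine (norm_add_le _ _).trans_lt ?_
    rw [h2]
    linarith

theorem level_null {S : Set (E 2)} (hS : IsClosed S) (hne : S.Nonempty) {r : ℝ} (hr : 0 < r) :
    volume {x : E 2 | infDist x S = r} = 0 := by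
  set M : Set (E 2) := {x : E 2 | infDist x S = r} with hM
  have hMc : IsClosed M := isClosed_eq (continuous_infDist_pt S) continuous_const
  have hMm : MeasurableSet M := hMc.measurableSet
  have hae := Besicovitch.ae_tendsto_measure_inter_div_of_measurableSet (volume : Measure (E 2)) hMm
  have hno : ∀ x ∈ M, ¬ Tendsto (fun ρ => volume (M ∩ closedBall x ρ) / volume (closedBall x ρ))
      (𝓝[>] 0) (𝓝 (M.indicator 1 x)) := by
    intro x hx ht
    rw [indicator_of_mem hx, Pi.one_apply] at ht
    have hbd : ∀ᶠ ρ in 𝓝[>] (0 : ℝ), volume (M ∩ closedBall x ρ) / volume (closedBall x ρ) ≤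
        ENNReal.ofReal (3 / 4) := by
      filter_upwards [Ioo_mem_nhdsGT hr] with ρ hρ
      obtain ⟨z, hz1, hz2⟩ := level_ball hS hne hr hx hρ.1 hρ.2.le
      have hpos : 0 < volume (closedBall x ρ) := measure_closedBall_pos volume x hρ.1
      have hfin : volume (closedBall x ρ) ≠ ⊤ := measure_closedBall_lt_top.ne
      have hvz : volume (ball z (ρ / 2)) = ENNReal.ofReal (1 / 4) * volume (closedBall x ρ) := by
        rw [EuclideanSpace.volume_ball_fin_two, EuclideanSpace.volume_closedBall_fin_two,
          ← mul_assoc]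
        congr 1
        rw [← ENNReal.ofReal_pow (by linarith [hρ.1] : 0 ≤ ρ / 2), ← ENNReal.ofReal_pow hρ.1.le,
          ← ENNReal.ofReal_mul (by norm_num)]
        congr 1
        ring
      have hdisj : M ∩ closedBall x ρ ⊆ closedBall x ρ \ ball z (ρ / 2) := by
        rintro y ⟨hy1, hy2⟩
        refine ⟨hy2, fun hy3 => ?_⟩
        have h5 := hz2 y hy3
        have h6 : infDist y S = r := hy1
        linarith
      rw [ENNReal.div_le_iff hpos.ne' hfin]
      refine (measure_mono hdisj).trans ?_
      rw [measure_diff hz1 measurableSet_ball.nullMeasurableSet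
        (ne_top_of_le_ne_top hfin (measure_mono hz1)), hvz]
      rw [tsub_le_iff_right, ← add_mul, ← ENNReal.ofReal_add (by norm_num) (by norm_num)]
      norm_num
    have h1 : (1 : ℝ≥0∞) ≤ ENNReal.ofReal (3 / 4) := le_of_tendsto ht hbd
    have h2 : ENNReal.ofReal (3 / 4) < 1 := by
      rw [← ENNReal.ofReal_one]
      exact (ENNReal.ofReal_lt_ofReal_iff one_pos).2 (by norm_num)
    exact absurd h1 (not_le.2 h2)
  have : M ⊆ {x | ¬ Tendsto (fun ρ => volume (M ∩ closedBall x ρ) / volume (closedBall x ρ))
      (𝓝[>] 0) (𝓝 (M.indicator 1 x))} := fun x hx => hno x hx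
  exact measure_mono_null this hae

end Pool.Agent.RP
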