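import Pool.Agent.H.MP_1b807b_an.A.StripC
import Pool.Agent.H.MP_1b807b_an.P.MVc

/-! MP_1b807b_an, planar domains, module StripS: strips, cobounded case, sharp form -/

set_option autoImplicit false

namespace Pool.Agent.RP

open MeasureTheory Metric Set Pool.Agent.RG Pool.Agent.RA
open scoped RealInnerProductSpace ENNReal Topology Pointwise

theorem strips_cnt_bot {n : ℕ} (c : Fin n → ℝ) {y : ℝ} (h : ∀ i, y ≤ c i) :
    stripc_cnt c y = 0 := by
  unfold stripc_cnt
  rw [Finset.sum_congr rfl (fun i _ => if_neg (not_lt.2 (h i)))]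
  simp

/-- the core inequality -/
theorem strips_core {S : Set (E 2)} (hS : IsClosed S) (hc : IsPreconnected S) {R : ℝ} (hR : 0 < R)
    (hb : ∀ x : E 2, R ≤ ‖x‖ → x ∈ S) {θ : ℝ} {v : E 2} (hv : 0 < ⟪dir θ, v⟫) (p : ℝ) (K : ℕ)
    (hfin : ∀ k : ℤ, (rend (slc θ S (p + k * ⟪dir θ, v⟫))).Finite) (n : ℤ → ℕ)
    (hn : ∀ k : ℤ, (n k : ℕ∞) ≤
      (rend (slc θ (S + segment ℝ 0 v) (p + k * ⟪dir θ, v⟫))).encard)
    (i0 : Fin (2 * K + 1)) (hi0 : slc θ S (p + (((i0 : ℕ) : ℤ) - K : ℤ) * ⟪dir θ, v⟫) ≠ univ) :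
    ∑ i ∈ Finset.range (2 * K), n ((i : ℤ) + 1 - K) + 1 ≤
      ∑ i ∈ Finset.range (2 * K + 1), (rend (slc θ S (p + ((i : ℤ) - K : ℤ) * ⟪dir θ, v⟫))).ncard := by
  classical
  set a := ⟪dir θ, v⟫ with ha
  choose b c hbA hcA hbc hcb using fun k : ℤ => exists_cuts (hn k)
  -- the projection
  let pr : ℤ → E 2 → ℝ := fun k x => ⟪nrm θ, x⟫ + ⟪nrm θ, v⟫ / a * ((p + k * a) - ⟪dir θ, x⟫)
  have hprc : ∀ k, Continuous (pr k) := fun k =>
    (continuous_const.inner continuous_id).add (continuous_const.mul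
      (continuous_const.sub (continuous_const.inner continuous_id)))
  have hslc : ∀ k : ℤ, slc θ (S + segment ℝ 0 v) (p + k * a) = pr k ''
      (S ∩ {x | (p + k * a) - a ≤ ⟪dir θ, x⟫ ∧ ⟪dir θ, x⟫ ≤ p + k * a}) := fun k =>
    slc_add_segment hv (p + k * a)
  -- the point at height `y` of the line `q`
  let pt : ℝ → ℝ → E 2 := fun q y => q • dir θ + y • nrm θ
  have hpt1 : ∀ q y, ⟪dir θ, pt q y⟫ = q := fun q y => inner_dir_comb θ q y
  have hpt2 : ∀ q y, ⟪nrm θ, pt q y⟫ = y := fun q y => inner_nrm_comb θ q y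
  have hptS : ∀ q y, R ≤ y → pt q y ∈ S := by
    intro q y hy
    refine hb _ (hy.trans ?_)
    have := abs_inner_nrm_le θ (pt q y)
    rw [hpt2] at this
    exact (le_abs_self y).trans this
  let Φ : Fin (2 * K + 1 + 1) → E 2 → ℕ := fun i x =>
    if (i : ℕ) = 0 ∨ (i : ℕ) = 2 * K + 1 then 0
    else stripc_cnt (c (((i : ℕ) : ℤ) - K)) (pr (((i : ℕ) : ℤ) - K) x)
  let nn : Fin (2 * K + 1 + 1) → ℕ := fun i =>
    if (i : ℕ) = 0 ∨ (i : ℕ) = 2 * K + 1 then 1 else n (((i : ℕ) : ℤ) - K) + 1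
  let G : Fin (2 * K + 1) → Finset (E 2) := fun i =>
    (if i = i0 then (hfin (((i : ℕ) : ℤ) - K)).toFinset else
      insert R (hfin (((i : ℕ) : ℤ) - K)).toFinset).image (pt (p + (((i : ℕ) : ℤ) - K : ℤ) * a))
  have hΦ0 : ∀ i : Fin (2 * K + 1 + 1), ((i : ℕ) = 0 ∨ (i : ℕ) = 2 * K + 1) → ∀ x, Φ i x = 0 :=
    fun i hi x => if_pos hi
  have hΦ1 : ∀ i : Fin (2 * K + 1 + 1), ¬ ((i : ℕ) = 0 ∨ (i : ℕ) = 2 * K + 1) → ∀ x, Φ i x =
      stripc_cnt (c (((i : ℕ) : ℤ) - K)) (pr (((i : ℕ) : ℤ) - K) x) := fun i hi x => if_neg hi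
  have hnn0 : ∀ i : Fin (2 * K + 1 + 1), ((i : ℕ) = 0 ∨ (i : ℕ) = 2 * K + 1) → nn i = 1 :=
    fun i hi => if_pos hi
  have hnn1 : ∀ i : Fin (2 * K + 1 + 1), ¬ ((i : ℕ) = 0 ∨ (i : ℕ) = 2 * K + 1) →
      nn i = n (((i : ℕ) : ℤ) - K) + 1 := fun i hi => if_neg hi
  have hstrip : ∀ i : Fin (2 * K + 1 + 1), ¬ ((i : ℕ) = 0 ∨ (i : ℕ) = 2 * K + 1) →
      S ∩ stripc_B θ p a K i = S ∩ {x | (p + (((i : ℕ) : ℤ) - K : ℤ) * a) - a ≤ ⟪dir θ, x⟫ ∧
        ⟪dir θ, x⟫ ≤ p + (((i : ℕ) : ℤ) - K : ℤ) * a} := by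
    intro i hi
    rw [not_or] at hi
    ext x
    refine and_congr_right fun _ => ?_
    exact ⟨fun h => ⟨h.1.resolve_left hi.1, h.2.resolve_left hi.2⟩, fun h => ⟨Or.inr h.1, Or.inr h.2⟩⟩
  have hΦc : ∀ i, ContinuousOn (Φ i) (S ∩ stripc_B θ p a K i) := by
    intro i
    by_cases hi : (i : ℕ) = 0 ∨ (i : ℕ) = 2 * K + 1
    · have : Φ i = fun _ => 0 := funext (hΦ0 i hi)
      rw [this]
      exact continuousOn_const
    · have : Φ i = fun x => stripc_cnt (c (((i : ℕ) : ℤ) - K)) (pr (((i : ℕ) : ℤ) - K) x) :=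
        funext (hΦ1 i hi)
      rw [this, hstrip i hi]
      refine stripc_cont (hprc _).continuousOn _ fun x hx j h => ?_
      refine hcA (((i : ℕ) : ℤ) - K) j ?_
      rw [hslc, ← h]
      exact mem_image_of_mem _ hx
  have hmv := mv_core2 hc (2 * K + 1) (stripc_B θ p a K) (stripc_B_closed θ p a K)
    (fun x _ => mem_iUnion.2 (stripc_B_cov θ p hv K x)) ?_ Φ hΦc nn ?_ ?_ G ?_ ?_
  · -- the count
    have hcard : ∀ i, (G i).card ≤
        (rend (slc θ S (p + (((i : ℕ) : ℤ) - K : ℤ) * a))).ncard + (if i = i0 then 0 else 1) := by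
      intro i
      by_cases hi : i = i0
      · rw [if_pos hi]
        change ((if i = i0 then (hfin (((i : ℕ) : ℤ) - K)).toFinset else _).image _).card ≤ _
        rw [if_pos hi]
        refine Finset.card_image_le.trans ?_
        rw [Set.ncard_eq_toFinset_card _ (hfin _), add_zero]
      · rw [if_neg hi]
        change ((if i = i0 then (hfin (((i : ℕ) : ℤ) - K)).toFinset else _).image _).card ≤ _
        rw [if_neg hi]
        refine Finset.card_image_le.trans ((Finset.card_insert_le _ _).trans ?_)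
        rw [Set.ncard_eq_toFinset_card _ (hfin _)]
    have h1 : ∑ i, nn i = ∑ i ∈ Finset.range (2 * K), (n ((i : ℤ) + 1 - K) + 1) + 2 := by
      rw [Fin.sum_univ_succ, Fin.sum_univ_castSucc, hnn0 0 (Or.inl rfl),
        hnn0 (Fin.last (2 * K)).succ (Or.inr rfl), ← Fin.sum_univ_eq_sum_range
          (fun i => n ((i : ℤ) + 1 - K) + 1)]
      have : ∀ i : Fin (2 * K), nn i.castSucc.succ = n (((i : ℕ) : ℤ) + 1 - K) + 1 := by
        intro i
        have hi := i.2
        rw [hnn1]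
        · simp only [Fin.val_succ, Fin.val_castSucc]
          push_cast
          rfl
        · simp only [Fin.val_succ, Fin.val_castSucc]
          omega
      rw [Finset.sum_congr rfl fun i _ => this i]
      omega
    have h2 : ∑ i, (G i).card ≤ ∑ i ∈ Finset.range (2 * K + 1),
        (rend (slc θ S (p + ((i : ℤ) - K : ℤ) * a))).ncard + 2 * K := by
      refine (Finset.sum_le_sum fun i _ => hcard i).trans ?_
      rw [Finset.sum_add_distrib, Fin.sum_univ_eq_sum_range
        (fun i => (rend (slc θ S (p + ((i : ℤ) - K : ℤ) * a))).ncard)]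
      have h3 : ∑ i : Fin (2 * K + 1), (if i = i0 then 0 else 1) = 2 * K := by
        have h4 : ∑ i : Fin (2 * K + 1), ((if i = i0 then 0 else 1) + (if i = i0 then 1 else 0)) =
            2 * K + 1 := by
          rw [Finset.sum_congr rfl (g := fun _ => 1) fun i _ => by split_ifs <;> rfl]
          simp
        rw [Finset.sum_add_distrib, Finset.sum_ite_eq' Finset.univ i0 (fun _ => 1),
          if_pos (Finset.mem_univ _)] at h4
        omega
      rw [h3]
    rw [h1] at hmv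
    rw [Finset.sum_add_distrib] at hmv
    simp only [Finset.sum_const, Finset.card_range, smul_eq_mul, mul_one] at hmv
    omega
  · -- disjointness
    intro i j hij
    rw [Set.disjoint_left]
    rintro x ⟨-, -, h1⟩ ⟨h2, -⟩
    have hj := j.2
    have h1' := h1.resolve_left (by omega)
    have h2' := h2.resolve_left (by omega)
    have h3 : (((i : ℕ) : ℤ) : ℝ) + 2 ≤ (((j : ℕ) : ℤ) : ℝ) := by
      have : ((i : ℕ) : ℤ) + 2 ≤ ((j : ℕ) : ℤ) := by omega
      exact_mod_cast this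
    have h4 := mul_le_mul_of_nonneg_right h3 hv.le
    push_cast at h1' h2' h4
    have h5 : (0 : ℝ) < a := hv
    nlinarith
  · -- values are attained
    intro i j hj
    by_cases hi : (i : ℕ) = 0 ∨ (i : ℕ) = 2 * K + 1
    · rw [hnn0 i hi] at hj
      have hj0 : j = 0 := by omega
      subst hj0
      rcases hi with hi | hi
      · refine ⟨pt (p + (((i : ℕ) : ℤ) - K : ℤ) * a) R, ⟨hptS _ _ le_rfl, Or.inl hi, Or.inr ?_⟩,
          hΦ0 i (Or.inl hi) _⟩
        rw [hpt1]
      · refine ⟨pt (p + (((i : ℕ) : ℤ) - K : ℤ) * a) R, ⟨hptS _ _ le_rfl, Or.inr ?_, Or.inl hi⟩,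
          hΦ0 i (Or.inr hi) _⟩
        rw [hpt1]
        linarith
    · rw [hnn1 i hi] at hj
      rw [hstrip i hi]
      rcases Nat.lt_succ_iff_lt_or_eq.1 hj with h1 | h1
      · have h2 := hbA (((i : ℕ) : ℤ) - K) ⟨j, h1⟩
        rw [hslc] at h2
        obtain ⟨x, hx, hxb⟩ := h2
        refine ⟨x, hx, ?_⟩
        rw [hΦ1 i hi, hxb, stripc_cnt_val (hbc _) (hcb _)]
      · set y : ℝ := R + ∑ l, |c (((i : ℕ) : ℤ) - K) l| with hy
        have hyR : R ≤ y := by
          have : 0 ≤ ∑ l, |c (((i : ℕ) : ℤ) - K) l| := Finset.sum_nonneg fun l _ => abs_nonneg _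
          linarith
        refine ⟨pt (p + (((i : ℕ) : ℤ) - K : ℤ) * a) y, ⟨hptS _ _ hyR, ?_, ?_⟩, ?_⟩
        · rw [hpt1]
          linarith
        · rw [hpt1]
        · rw [hΦ1 i hi, h1]
          refine stripc_cnt_top _ fun l => ?_
          have h3 : pr (((i : ℕ) : ℤ) - K) (pt (p + (((i : ℕ) : ℤ) - K : ℤ) * a) y) = y := by
            simp only [pr, hpt1, hpt2]
            ring
          rw [h3]
          have h4 : |c (((i : ℕ) : ℤ) - K) l| ≤ ∑ l, |c (((i : ℕ) : ℤ) - K) l| :=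
            Finset.single_le_sum (f := fun l => |c (((i : ℕ) : ℤ) - K) l|)
              (fun l _ => abs_nonneg _) (Finset.mem_univ l)
          linarith [le_abs_self (c (((i : ℕ) : ℤ) - K) l)]
  · -- values are bounded
    intro i x _
    by_cases hi : (i : ℕ) = 0 ∨ (i : ℕ) = 2 * K + 1
    · rw [hnn0 i hi, hΦ0 i hi]
      exact one_pos
    · rw [hnn1 i hi, hΦ1 i hi]
      exact Nat.lt_succ_of_le (stripc_cnt_le _ _)
  · -- `G`
    intro i y hy
    have hy' : y ∈ (insert R (hfin (((i : ℕ) : ℤ) - K)).toFinset).image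
        (pt (p + (((i : ℕ) : ℤ) - K : ℤ) * a)) := by
      refine Finset.image_subset_image ?_ hy
      split_ifs
      · exact Finset.subset_insert _ _
      · exact Finset.Subset.refl _
    obtain ⟨t, ht, rfl⟩ := Finset.mem_image.1 hy'
    have h1 := (stripc_B_line hv i (θ := θ) (p := p)
      (x := pt (p + (((i : ℕ) : ℤ) - K : ℤ) * a) t)).2 (hpt1 _ _)
    refine ⟨⟨?_, h1.1⟩, h1.2⟩
    rcases Finset.mem_insert.1 ht with h2 | h2
    · rw [h2]
      exact hptS _ _ le_rfl
    · rw [Set.Finite.mem_toFinset] at h2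
      exact h2.1
  · -- the gluing conditions
    intro W hW
    -- moving along a line
    have hmove : ∀ (i : Fin (2 * K + 1)) (y0 y1 : ℝ),
        uIcc y0 y1 ⊆ slc θ S (p + (((i : ℕ) : ℤ) - K : ℤ) * a) →
        Φ i.castSucc (pt (p + (((i : ℕ) : ℤ) - K : ℤ) * a) y0) =
          Φ i.castSucc (pt (p + (((i : ℕ) : ℤ) - K : ℤ) * a) y1) ∧
        Φ i.succ (pt (p + (((i : ℕ) : ℤ) - K : ℤ) * a) y0) =
          Φ i.succ (pt (p + (((i : ℕ) : ℤ) - K : ℤ) * a) y1) := by
      intro i y0 y1 hsub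
      set q := p + (((i : ℕ) : ℤ) - K : ℤ) * a with hq
      have hP : IsPreconnected (pt q '' uIcc y0 y1) := by
        refine isPreconnected_uIcc.image _ (Continuous.continuousOn ?_)
        exact continuous_const.add (continuous_id.smul continuous_const)
      have hPS : pt q '' uIcc y0 y1 ⊆ S := by
        rintro _ ⟨t, ht, rfl⟩
        exact hsub ht
      have hPB : ∀ z ∈ pt q '' uIcc y0 y1,
          z ∈ stripc_B θ p a K i.castSucc ∩ stripc_B θ p a K i.succ := by
        rintro _ ⟨t, ht, rfl⟩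
        exact (stripc_B_line hv i).2 (hpt1 _ _)
      have hx0 : pt q y0 ∈ pt q '' uIcc y0 y1 := mem_image_of_mem _ left_mem_uIcc
      have hx1' : pt q y1 ∈ pt q '' uIcc y0 y1 := mem_image_of_mem _ right_mem_uIcc
      refine ⟨?_, ?_⟩
      · exact hP.constant ((hΦc i.castSucc).mono fun z hz => ⟨hPS hz, (hPB z hz).1⟩) hx0 hx1'
      · exact hP.constant ((hΦc i.succ).mono fun z hz => ⟨hPS hz, (hPB z hz).2⟩) hx0 hx1'
    -- points joined to a point of `G i`
    have hjoin : ∀ (i : Fin (2 * K + 1)) (y0 y1 : ℝ),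
        uIcc y0 y1 ⊆ slc θ S (p + (((i : ℕ) : ℤ) - K : ℤ) * a) →
        pt (p + (((i : ℕ) : ℤ) - K : ℤ) * a) y1 ∈ G i →
        W i.castSucc (Φ i.castSucc (pt (p + (((i : ℕ) : ℤ) - K : ℤ) * a) y0)) =
          W i.succ (Φ i.succ (pt (p + (((i : ℕ) : ℤ) - K : ℤ) * a) y0)) := by
      intro i y0 y1 hsub hy1
      obtain ⟨e1, e2⟩ := hmove i y0 y1 hsub
      rw [e1, e2]
      exact hW i _ hy1
    have hGR : ∀ i : Fin (2 * K + 1), i ≠ i0 →
        pt (p + (((i : ℕ) : ℤ) - K : ℤ) * a) R ∈ G i := by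
      intro i hi
      change _ ∈ (if i = i0 then (hfin (((i : ℕ) : ℤ) - K)).toFinset else _).image _
      rw [if_neg hi]
      exact Finset.mem_image_of_mem _ (Finset.mem_insert_self _ _)
    have hGr : ∀ (i : Fin (2 * K + 1)) (y : ℝ),
        y ∈ rend (slc θ S (p + (((i : ℕ) : ℤ) - K : ℤ) * a)) →
        pt (p + (((i : ℕ) : ℤ) - K : ℤ) * a) y ∈ G i := by
      intro i y hy
      refine Finset.mem_image_of_mem _ ?_
      split_ifs
      · exact (Set.Finite.mem_toFinset _).2 hy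
      · exact Finset.mem_insert_of_mem ((Set.Finite.mem_toFinset _).2 hy)
    have hptS' : ∀ q y, y ≤ -R → pt q y ∈ S := by
      intro q y hy
      refine hb _ ?_
      have h1 := abs_inner_nrm_le θ (pt q y)
      rw [hpt2] at h1
      have h2 := neg_le_abs y
      linarith
    -- far values
    set Y : ℝ := R + 1 + |⟪nrm θ, v⟫| +
      ∑ i : Fin (2 * K + 1 + 1), ∑ l, |c (((i : ℕ) : ℤ) - K) l| with hY
    have hYc : ∀ (i : Fin (2 * K + 1 + 1)) l, |c (((i : ℕ) : ℤ) - K) l| ≤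
        ∑ i : Fin (2 * K + 1 + 1), ∑ l, |c (((i : ℕ) : ℤ) - K) l| := by
      intro i l
      refine (Finset.single_le_sum (f := fun l => |c (((i : ℕ) : ℤ) - K) l|)
        (fun l _ => abs_nonneg _) (Finset.mem_univ l)).trans ?_
      exact Finset.single_le_sum (f := fun i : Fin (2 * K + 1 + 1) =>
        ∑ l, |c (((i : ℕ) : ℤ) - K) l|)
        (fun i _ => Finset.sum_nonneg fun l _ => abs_nonneg _) (Finset.mem_univ i)
    have hYR : R + 1 ≤ Y := by
      have h1 : 0 ≤ ∑ i : Fin (2 * K + 1 + 1), ∑ l, |c (((i : ℕ) : ℤ) - K) l| :=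
        Finset.sum_nonneg fun i _ => Finset.sum_nonneg fun l _ => abs_nonneg _
      have h2 := abs_nonneg ⟪nrm θ, v⟫
      linarith
    let T : Fin (2 * K + 1 + 1) → ℕ := fun i =>
      if (i : ℕ) = 0 ∨ (i : ℕ) = 2 * K + 1 then 0 else n (((i : ℕ) : ℤ) - K)
    -- on a line `q` with `q = p + k a` or `q = p + (k - 1) a` the projection moves by at most `|v|`
    have hfar : ∀ (i : Fin (2 * K + 1 + 1)) (q y : ℝ),
        (q = p + (((i : ℕ) : ℤ) - K : ℤ) * a ∨ q = p + (((i : ℕ) : ℤ) - K : ℤ) * a - a) →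
        |pr (((i : ℕ) : ℤ) - K) (pt q y) - y| ≤ |⟪nrm θ, v⟫| := by
      intro i q y hq
      simp only [pr, hpt1, hpt2]
      rcases hq with hq | hq
      · rw [hq]
        have e : y + ⟪nrm θ, v⟫ / a * (p + (((i : ℕ) : ℤ) - K : ℤ) * a -
            (p + (((i : ℕ) : ℤ) - K : ℤ) * a)) - y = 0 := by ring
        rw [e, abs_zero]
        exact abs_nonneg _
      · rw [hq]
        have hv' : a ≠ 0 := hv.ne'
        have e : y + ⟪nrm θ, v⟫ / a * (p + (((i : ℕ) : ℤ) - K : ℤ) * a -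
            (p + (((i : ℕ) : ℤ) - K : ℤ) * a - a)) - y = ⟪nrm θ, v⟫ := by
          field_simp
          ring
        rw [e]
    have hhi : ∀ (i : Fin (2 * K + 1 + 1)) (q y : ℝ), Y ≤ y →
        (q = p + (((i : ℕ) : ℤ) - K : ℤ) * a ∨ q = p + (((i : ℕ) : ℤ) - K : ℤ) * a - a) →
        Φ i (pt q y) = T i := by
      intro i q y hy hq
      by_cases hi : (i : ℕ) = 0 ∨ (i : ℕ) = 2 * K + 1
      · rw [hΦ0 i hi]
        exact (if_pos hi).symm
      · rw [hΦ1 i hi]
        have e : T i = n (((i : ℕ) : ℤ) - K) := if_neg hi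
        rw [e]
        refine stripc_cnt_top _ fun l => ?_
        have h1 := (abs_le.1 (hfar i q y hq)).1
        have h2 := hYc i l
        have h3 := le_abs_self (c (((i : ℕ) : ℤ) - K) l)
        linarith
    have hlo : ∀ (i : Fin (2 * K + 1 + 1)) (q y : ℝ), y ≤ -Y →
        (q = p + (((i : ℕ) : ℤ) - K : ℤ) * a ∨ q = p + (((i : ℕ) : ℤ) - K : ℤ) * a - a) →
        Φ i (pt q y) = 0 := by
      intro i q y hy hq
      by_cases hi : (i : ℕ) = 0 ∨ (i : ℕ) = 2 * K + 1
      · rw [hΦ0 i hi]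
      · rw [hΦ1 i hi]
        refine strips_cnt_bot _ fun l => ?_
        have h1 := (abs_le.1 (hfar i q y hq)).2
        have h2 := hYc i l
        have h3 := neg_abs_le (c (((i : ℕ) : ℤ) - K) l)
        linarith
    have hline1 : ∀ i : Fin (2 * K + 1), p + (((i : ℕ) : ℤ) - K : ℤ) * a =
        p + (((i.castSucc : Fin (2 * K + 1 + 1)) : ℕ) - K : ℤ) * a := fun i => by
      rw [Fin.val_castSucc]
    have hline2 : ∀ i : Fin (2 * K + 1), p + (((i : ℕ) : ℤ) - K : ℤ) * a =
        p + (((i.succ : Fin (2 * K + 1 + 1)) : ℕ) - K : ℤ) * a - a := fun i => by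
      rw [Fin.val_succ]
      push_cast
      ring
    -- the lower chain
    have hlow : ∀ i : Fin (2 * K + 1), W i.castSucc 0 = W i.succ 0 := by
      intro i
      have e1 := hlo i.castSucc (p + (((i : ℕ) : ℤ) - K : ℤ) * a) (-Y) le_rfl (Or.inl (hline1 i))
      have e2 := hlo i.succ (p + (((i : ℕ) : ℤ) - K : ℤ) * a) (-Y) le_rfl (Or.inr (hline2 i))
      have hmem : -Y ∈ slc θ S (p + (((i : ℕ) : ℤ) - K : ℤ) * a) :=
        hptS' _ _ (by linarith)
      have key : W i.castSucc (Φ i.castSucc (pt (p + (((i : ℕ) : ℤ) - K : ℤ) * a) (-Y))) =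
          W i.succ (Φ i.succ (pt (p + (((i : ℕ) : ℤ) - K : ℤ) * a) (-Y))) := by
        rcases exists_rend (isClosed_slc (θ := θ) hS _) (hfin (((i : ℕ) : ℤ) - K)) hmem with
          ⟨b', hb', hle, hsub⟩ | hsub
        · refine hjoin i (-Y) b' ?_ (hGr i b' hb')
          rwa [uIcc_of_le hle]
        · by_cases hi : i = i0
          · exfalso
            apply hi0
            rw [← hi]
            refine eq_univ_of_forall fun y => ?_
            rcases le_total y (-Y) with h1 | h1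
            · exact hptS' _ _ (by linarith)
            · exact hsub h1
          · refine hjoin i (-Y) R ?_ (hGR i hi)
            rw [uIcc_of_le (by linarith)]
            exact fun t ht => hsub ht.1
      rwa [e1, e2] at key
    have hhigh : ∀ i : Fin (2 * K + 1), i ≠ i0 → W i.castSucc (T i.castSucc) = W i.succ (T i.succ) := by
      intro i hi
      have e1 := hhi i.castSucc (p + (((i : ℕ) : ℤ) - K : ℤ) * a) Y le_rfl (Or.inl (hline1 i))
      have e2 := hhi i.succ (p + (((i : ℕ) : ℤ) - K : ℤ) * a) Y le_rfl (Or.inr (hline2 i))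
      have key := hjoin i Y R (by
        rw [uIcc_of_ge (by linarith)]
        exact fun t ht => hptS _ t ht.1) (hGR i hi)
      rwa [e1, e2] at key
    have hlow' : ∀ (j : ℕ) (hj : j < 2 * K + 1 + 1), W ⟨j, hj⟩ 0 = W 0 0 := by
      intro j
      induction j with
      | zero => intro _; rfl
      | succ j ih =>
        intro hj
        rw [← ih (by omega)]
        exact (hlow ⟨j, by omega⟩).symm
    have hup : ∀ (j : ℕ) (hj : j < 2 * K + 1 + 1), j ≤ (i0 : ℕ) →
        W ⟨j, hj⟩ (T ⟨j, hj⟩) = W 0 (T 0) := by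
      intro j
      induction j with
      | zero => intro _ _; rfl
      | succ j ih =>
        intro hj hji
        rw [← ih (by omega) (by omega)]
        refine (hhigh ⟨j, by omega⟩ ?_).symm
        intro h
        rw [← h] at hji
        simp at hji
    have hdown : ∀ (m j : ℕ) (hj : j < 2 * K + 1 + 1), j + m = 2 * K + 1 → (i0 : ℕ) < j →
        W ⟨j, hj⟩ (T ⟨j, hj⟩) = W (Fin.last (2 * K + 1)) (T (Fin.last (2 * K + 1))) := by
      intro m
      induction m with
      | zero =>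
        intro j hj hjm _
        have e : (⟨j, hj⟩ : Fin (2 * K + 1 + 1)) = Fin.last (2 * K + 1) := Fin.ext (by
          simp only [Fin.val_last]
          omega)
        rw [e]
      | succ m ih =>
        intro j hj hjm hij
        rw [← ih (j + 1) (by omega) (by omega) (by omega)]
        refine hhigh ⟨j, by omega⟩ ?_
        intro h
        rw [← h] at hij
        simp at hij
    have hT0 : T 0 = 0 := if_pos (Or.inl rfl)
    have hTl : T (Fin.last (2 * K + 1)) = 0 := if_pos (Or.inr rfl)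
    have hcyc : W i0.castSucc (T i0.castSucc) = W i0.succ (T i0.succ) := by
      have h1 := hup (i0 : ℕ) (by omega) le_rfl
      have h2 := hdown (2 * K - (i0 : ℕ)) ((i0 : ℕ) + 1) (by omega) (by omega) (by omega)
      have h3 := hlow' (2 * K + 1) (by omega)
      rw [hT0] at h1
      rw [hTl] at h2
      have e1 : (⟨(i0 : ℕ), by omega⟩ : Fin (2 * K + 1 + 1)) = i0.castSucc := rfl
      have e2 : (⟨(i0 : ℕ) + 1, by omega⟩ : Fin (2 * K + 1 + 1)) = i0.succ := rfl
      have e3 : (⟨2 * K + 1, by omega⟩ : Fin (2 * K + 1 + 1)) = Fin.last (2 * K + 1) := rfl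
      rw [e1] at h1
      rw [e2] at h2
      rw [e3] at h3
      rw [h1, h2, h3]
    rintro i x ⟨⟨hxS, hx1⟩, hx2⟩
    have hxl := (stripc_B_line hv i).1 ⟨hx1, hx2⟩
    set y0 := ⟪nrm θ, x⟫ with hy0
    have hxpt : pt (p + (((i : ℕ) : ℤ) - K : ℤ) * a) y0 = x := by
      have := decomp θ x
      rw [hxl] at this
      exact this
    have hy0m : y0 ∈ slc θ S (p + (((i : ℕ) : ℤ) - K : ℤ) * a) := by
      rw [← hxpt] at hxS
      exact hxS
    rw [← hxpt]
    rcases exists_rend (isClosed_slc (θ := θ) hS _) (hfin (((i : ℕ) : ℤ) - K)) hy0m with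
      ⟨b', hb', hle, hsub⟩ | hsub
    · refine hjoin i y0 b' ?_ (hGr i b' hb')
      rwa [uIcc_of_le hle]
    · by_cases hi : i = i0
      · obtain ⟨e1, e2⟩ := hmove i y0 (max y0 Y) (by
          rw [uIcc_of_le (le_max_left _ _)]
          exact fun t ht => hsub ht.1)
        rw [e1, e2, hhi i.castSucc _ (max y0 Y) (le_max_right _ _) (Or.inl (hline1 i)),
          hhi i.succ _ (max y0 Y) (le_max_right _ _) (Or.inr (hline2 i)), hi]
        exact hcyc
      · refine hjoin i y0 R ?_ (hGR i hi)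
        rcases le_total y0 R with h1 | h1
        · rw [uIcc_of_le h1]
          exact fun t ht => hsub ht.1
        · rw [uIcc_of_ge h1]
          exact fun t ht => hptS _ t ht.1

end Pool.Agent.RP
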