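import Pool.Agent.H.MP_1b807b_an.A.NNaddB
import Pool.Agent.H.MP_1b807b_an.P.StripS

/-! MP_1b807b_an, planar domains, module StripT: NN of a sum with a segment, cobounded case, sharp
form -/

set_option autoImplicit false

namespace Pool.Agent.RP

open MeasureTheory Metric Set Pool.Agent.RG Pool.Agent.RA
open scoped RealInnerProductSpace ENNReal Topology Pointwise

theorem strip_cobdd_sharp {S : Set (E 2)} (hS : IsClosed S) (hc : IsPreconnected S)
    (hb : Bornology.IsBounded Sᶜ) {θ : ℝ} {v : E 2} (hv : 0 < ⟪dir θ, v⟫) (p : ℝ)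
    (hp : ∃ k : ℤ, slc θ S (p + k * ⟪dir θ, v⟫) ≠ univ) :
    ∑' k : ℤ, cnt (rend (slc θ (S + segment ℝ 0 v) (p + k * ⟪dir θ, v⟫))) + 1 ≤
      ∑' k : ℤ, cnt (rend (slc θ S (p + k * ⟪dir θ, v⟫))) := by
  classical
  by_cases hfin : ∀ k : ℤ, (rend (slc θ S (p + k * ⟪dir θ, v⟫))).Finite
  swap
  · push Not at hfin
    obtain ⟨k, hk⟩ := hfin
    refine le_top.trans ((le_of_eq ?_).trans
      (ENNReal.le_tsum (f := fun k : ℤ => cnt (rend (slc θ S (p + k * ⟪dir θ, v⟫)))) k))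
    have hk' : (rend (slc θ S (p + k * ⟪dir θ, v⟫))).Infinite := hk
    simp only [cnt]
    rw [hk'.encard_eq]
    rfl
  obtain ⟨C, hC⟩ := isBounded_iff_forall_norm_le.1 hb
  set R : ℝ := |C| + 1 with hRdef
  have hR : 0 < R := by positivity
  have hbS : ∀ x : E 2, R ≤ ‖x‖ → x ∈ S := by
    intro x hx
    by_contra hxS
    have := hC x hxS
    linarith [le_abs_self C]
  set a := ⟪dir θ, v⟫ with ha
  obtain ⟨K, hK⟩ := exists_nat_gt ((R + |p|) / a)
  rw [div_lt_iff₀ hv] at hK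
  -- far away slices are full
  have hfull : ∀ k : ℤ, (K : ℤ) ≤ |k| → ∀ y, y ∈ slc θ S (p + k * a) := by
    intro k hk y
    refine hbS _ ?_
    have h1 := abs_inner_dir_le θ ((p + k * a) • dir θ + y • nrm θ)
    rw [inner_dir_comb] at h1
    refine le_trans ?_ h1
    have h2 : (K : ℝ) * a ≤ |(k : ℝ) * a| := by
      rw [abs_mul, abs_of_pos hv]
      refine mul_le_mul_of_nonneg_right ?_ hv.le
      exact_mod_cast hk
    have h3 : |(k : ℝ) * a| ≤ |p + k * a| + |p| := by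
      have := abs_sub (p + k * a) p
      rwa [add_sub_cancel_left] at this
    linarith
  have hfull1 : ∀ k : ℤ, (K : ℤ) ≤ |k| → rend (slc θ (S + segment ℝ 0 v) (p + k * a)) = ∅ := by
    intro k hk
    have : slc θ (S + segment ℝ 0 v) (p + k * a) = univ := by
      refine eq_univ_of_forall fun y => ?_
      have h1 : (p + k * a) • dir θ + y • nrm θ ∈ S := hfull k hk y
      refine ⟨_, h1, 0, left_mem_segment ℝ 0 v, ?_⟩
      simp
    rw [this, stripc_rend_univ]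
  set M : ℕ := ∑ i ∈ Finset.range (2 * K + 1), (rend (slc θ S (p + ((i : ℤ) - K : ℤ) * a))).ncard
    with hM
  let n : ℤ → ℕ := fun k =>
    if (rend (slc θ (S + segment ℝ 0 v) (p + k * a))).Finite then
      (rend (slc θ (S + segment ℝ 0 v) (p + k * a))).ncard else M + 1
  have hn : ∀ k : ℤ, (n k : ℕ∞) ≤ (rend (slc θ (S + segment ℝ 0 v) (p + k * a))).encard := by
    intro k
    by_cases h : (rend (slc θ (S + segment ℝ 0 v) (p + k * a))).Finite
    · simp only [n, if_pos h]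
      rw [h.cast_ncard_eq]
    · rw [Set.Infinite.encard_eq h]
      exact le_top
  obtain ⟨k0, hk0⟩ := hp
  have hk0K : |k0| < (K : ℤ) := by
    by_contra hlt
    exact hk0 (eq_univ_of_forall (hfull k0 (not_lt.1 hlt)))
  rw [abs_lt] at hk0K
  have hi0 : (((k0 + K).toNat : ℕ) : ℤ) = k0 + K := Int.toNat_of_nonneg (by omega)
  have hcore := strips_core hS hc hR hbS hv p K hfin n hn ⟨(k0 + K).toNat, by omega⟩ (by
    have e : (((k0 + K).toNat : ℕ) : ℤ) - (K : ℤ) = k0 := by omega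
    simp only [e]
    exact hk0)
  rw [← ha, ← hM] at hcore
  have hfin2 : ∀ i ∈ Finset.range (2 * K),
      cnt (rend (slc θ (S + segment ℝ 0 v) (p + ((i : ℤ) + 1 - K : ℤ) * a))) =
        ((n ((i : ℤ) + 1 - K) : ℕ) : ℝ≥0∞) := by
    intro i hi
    have h1 : n ((i : ℤ) + 1 - K) ≤ M :=
      (Finset.single_le_sum (f := fun i : ℕ => n ((i : ℤ) + 1 - K)) (fun _ _ => Nat.zero_le _)
        hi).trans ((Nat.le_succ _).trans hcore)
    have h2 : (rend (slc θ (S + segment ℝ 0 v) (p + ((i : ℤ) + 1 - K : ℤ) * a))).Finite := by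
      by_contra h
      simp only [n, if_neg h] at h1
      omega
    simp only [n, if_pos h2, cnt]
    rw [← h2.cast_ncard_eq]
    rfl
  let e1 : ℕ ↪ ℤ := ⟨fun i => (i : ℤ) + 1 - K, fun i j h => by
    have : (i : ℤ) + 1 - K = (j : ℤ) + 1 - K := h
    omega⟩
  let e2 : ℕ ↪ ℤ := ⟨fun i => (i : ℤ) - K, fun i j h => by
    have : (i : ℤ) - K = (j : ℤ) - K := h
    omega⟩
  have hL : ∑' k : ℤ, cnt (rend (slc θ (S + segment ℝ 0 v) (p + k * a))) =
      ∑ i ∈ Finset.range (2 * K),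
        cnt (rend (slc θ (S + segment ℝ 0 v) (p + ((i : ℤ) + 1 - K : ℤ) * a))) := by
    rw [tsum_eq_sum (s := (Finset.range (2 * K)).map e1), Finset.sum_map]
    · rfl
    · intro k hk
      have hk2 : (K : ℤ) ≤ |k| := by
        by_contra hlt
        rw [not_le, abs_lt] at hlt
        refine hk (Finset.mem_map.2 ⟨(k - 1 + K).toNat, ?_, ?_⟩)
        · rw [Finset.mem_range]
          omega
        · change (((k - 1 + K).toNat : ℕ) : ℤ) + 1 - K = k
          omega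
      rw [hfull1 k hk2]
      simp [cnt]
  have hRR : ∑ i ∈ Finset.range (2 * K + 1), cnt (rend (slc θ S (p + ((i : ℤ) - K : ℤ) * a))) ≤
      ∑' k : ℤ, cnt (rend (slc θ S (p + k * a))) := by
    have := ENNReal.sum_le_tsum (f := fun k : ℤ => cnt (rend (slc θ S (p + k * a))))
      ((Finset.range (2 * K + 1)).map e2)
    rw [Finset.sum_map] at this
    exact this
  rw [hL, Finset.sum_congr rfl hfin2]
  refine le_trans ?_ hRR
  have h3 : ∀ i : ℕ, cnt (rend (slc θ S (p + ((i : ℤ) - K : ℤ) * a))) =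
      (((rend (slc θ S (p + ((i : ℤ) - K : ℤ) * a))).ncard : ℕ) : ℝ≥0∞) := by
    intro i
    simp only [cnt]
    rw [← (hfin ((i : ℤ) - K)).cast_ncard_eq]
    rfl
  rw [Finset.sum_congr rfl fun i _ => h3 i, ← Nat.cast_sum, ← Nat.cast_sum]
  have h4 := (Nat.cast_le (α := ℝ≥0∞)).2 hcore
  rwa [Nat.cast_add, Nat.cast_one] at h4

/-- If `S + segment` does not fill the plane, every residue class of lines meets the complement
of `S`. -/
theorem exists_slc_ne {S : Set (E 2)} {θ : ℝ} {v : E 2} (hv : 0 < ⟪dir θ, v⟫)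
    (hne : (S + segment ℝ 0 v)ᶜ.Nonempty) (p : ℝ) :
    ∃ k : ℤ, slc θ S (p + k * ⟪dir θ, v⟫) ≠ univ := by
  obtain ⟨x, hx⟩ := hne
  set a := ⟪dir θ, v⟫ with ha
  refine ⟨⌊(⟪dir θ, x⟫ - p) / a⌋, fun h => hx ?_⟩
  set k := ⌊(⟪dir θ, x⟫ - p) / a⌋ with hk
  have h1 : (k : ℝ) ≤ (⟪dir θ, x⟫ - p) / a := Int.floor_le _
  have h2 : (⟪dir θ, x⟫ - p) / a < k + 1 := Int.lt_floor_add_one _
  rw [le_div_iff₀ hv] at h1
  rw [div_lt_iff₀ hv] at h2
  set s := (⟪dir θ, x⟫ - (p + k * a)) / a with hs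
  have hs0 : 0 ≤ s := div_nonneg (by linarith) hv.le
  have hs1 : s ≤ 1 := by
    rw [hs, div_le_one hv]
    linarith
  have hsa : s * a = ⟪dir θ, x⟫ - (p + k * a) := div_mul_cancel₀ _ hv.ne'
  have h3 : ⟪dir θ, x - s • v⟫ = p + k * a := by
    rw [inner_sub_right, inner_smul_right, ← ha, hsa]
    ring
  have h4 : x - s • v ∈ S := by
    have h5 : ⟪nrm θ, x - s • v⟫ ∈ slc θ S (p + k * a) := by
      rw [h]
      exact mem_univ _
    have h6 := decomp θ (x - s • v)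
    rw [h3] at h6
    have h7 : (p + k * a) • dir θ + ⟪nrm θ, x - s • v⟫ • nrm θ ∈ S := h5
    rwa [h6] at h7
  refine Set.mem_add.2 ⟨x - s • v, h4, s • v, ?_, by abel⟩
  rw [segment_eq_image']
  exact ⟨s, ⟨hs0, hs1⟩, by simp⟩

theorem NN_add_cobdd_sharp {S : Set (E 2)} (hS : IsClosed S) (hc : IsPreconnected S)
    (hb : Bornology.IsBounded Sᶜ) {θ : ℝ} {v : E 2} (hv : 0 < ⟪dir θ, v⟫)
    (hne : (S + segment ℝ 0 v)ᶜ.Nonempty) :
    NN θ (S + segment ℝ 0 v) + ENNReal.ofReal ⟪dir θ, v⟫ ≤ NN θ S := by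
  have h1 : IsClosed (S + segment ℝ 0 v) := hS.add_right_of_isCompact (nnaddb_segment v)
  rw [NN, NN, nnaddb_fold (measurable_rend θ h1) hv, nnaddb_fold (measurable_rend θ hS) hv]
  calc (∫⁻ p in Ico 0 ⟪dir θ, v⟫, ∑' k : ℤ, cnt (rend (slc θ (S + segment ℝ 0 v)
          (p + k * ⟪dir θ, v⟫)))) + ENNReal.ofReal ⟪dir θ, v⟫
      = ∫⁻ p in Ico 0 ⟪dir θ, v⟫, ((∑' k : ℤ, cnt (rend (slc θ (S + segment ℝ 0 v)
          (p + k * ⟪dir θ, v⟫)))) + 1) := by
        rw [lintegral_add_right _ measurable_const, setLIntegral_const, one_mul, Real.volume_Ico,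
          sub_zero]
    _ ≤ _ := lintegral_mono fun p => strip_cobdd_sharp hS hc hb hv p (exists_slc_ne hv hne p)

end Pool.Agent.RP
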