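import Pool.Agent.H.MP_1b807b_an.A.TubeB
import Pool.Agent.H.MP_1b807b_an.P.StripT

/-! MP_1b807b_an, planar domains, module TubeS: the sharp collar inequality, cobounded case -/

set_option autoImplicit false

namespace Pool.Agent.RP

open MeasureTheory Metric Set Pool.Agent.RG Pool.Agent.RA
open scoped RealInnerProductSpace ENNReal Topology Pointwise

theorem zon_area_cobdd_sharp {S : Set (E 2)} (hS : IsClosed S) (hc : IsPreconnected S)
    (hb : Bornology.IsBounded Sᶜ) {m : ℕ} {τ : ℝ} (hτ : 0 < τ)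
    (hne : (S + zon m τ m)ᶜ.Nonempty) :
    volume ((S + zon m τ m) \ S) + ENNReal.ofReal (τ ^ 2 * ∑ k ∈ Finset.range m,
        ∑ i ∈ Finset.range k, Real.sin ((k - i : ℝ) * Real.pi / m)) ≤
      ENNReal.ofReal τ * (∑ k ∈ Finset.range m, NN (k * Real.pi / m) S) := by
  have hP : ∀ j, IsClosed (S + zon m τ j) ∧ IsPreconnected (S + zon m τ j) ∧
      Bornology.IsBounded (S + zon m τ j)ᶜ := by
    intro j
    induction j with
    | zero => rw [zona_zero]; exact ⟨hS, hc, hb⟩
    | succ j ih =>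
      rw [zona_succ]
      exact ⟨ih.1.add_right_of_isCompact (zona_seg_compact _),
        zona_pre_add ih.2.1 (convex_segment _ _).isPreconnected,
        ih.2.2.subset (Set.compl_subset_compl.2 (zona_sub_add _ _))⟩
  have hne' : ∀ d j, j + d = m → (S + zon m τ j)ᶜ.Nonempty := by
    intro d
    induction d with
    | zero =>
      intro j hj
      rw [add_zero] at hj
      rw [hj]
      exact hne
    | succ d ih =>
      intro j hj
      refine (ih (j + 1) (by omega)).mono (Set.compl_subset_compl.2 ?_)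
      rw [zona_succ]
      exact zona_sub_add _ _
  have hN : ∀ k, k < m → ∀ j, j ≤ k → NN (k * Real.pi / m) (S + zon m τ j) +
      ∑ i ∈ Finset.range j, ENNReal.ofReal (τ * Real.sin ((k - i : ℝ) * Real.pi / m)) ≤
      NN (k * Real.pi / m) S := by
    intro k hk j
    induction j with
    | zero =>
      intro _
      rw [zona_zero, Finset.range_zero, Finset.sum_empty, add_zero]
    | succ j ih =>
      intro hj
      have h1 := NN_add_cobdd_sharp (hP j).1 (hP j).2.1 (hP j).2.2 (θ := k * Real.pi / m)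
        (v := τ • nrm (j * Real.pi / m)) (by
        rw [zona_inner]
        exact mul_pos hτ (zona_sin_pos hk (by omega))) (by
        rw [← zona_succ]
        exact hne' (m - (j + 1)) (j + 1) (by omega))
      rw [zona_inner] at h1
      rw [zona_succ, Finset.sum_range_succ]
      refine le_trans ?_ (ih (by omega))
      calc NN (k * Real.pi / m) (S + zon m τ j + segment ℝ 0 (τ • nrm (j * Real.pi / m))) +
            (∑ x ∈ Finset.range j, ENNReal.ofReal (τ * Real.sin ((k - x : ℝ) * Real.pi / m)) +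
              ENNReal.ofReal (τ * Real.sin ((k - j : ℝ) * Real.pi / m)))
          = (NN (k * Real.pi / m) (S + zon m τ j + segment ℝ 0 (τ • nrm (j * Real.pi / m))) +
              ENNReal.ofReal (τ * Real.sin ((k - j : ℝ) * Real.pi / m))) +
            ∑ x ∈ Finset.range j, ENNReal.ofReal (τ * Real.sin ((k - x : ℝ) * Real.pi / m)) := by
            ring
        _ ≤ _ := add_le_add h1 le_rfl
  have hV : ∀ j, volume ((S + zon m τ j) \ S) ≤
      ∑ k ∈ Finset.range j, ENNReal.ofReal τ * NN (k * Real.pi / m) (S + zon m τ k) := by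
    intro j
    induction j with
    | zero =>
      rw [zona_zero, Set.sdiff_self, measure_empty]
      exact zero_le
    | succ j ih =>
      rw [zona_succ, Finset.sum_range_succ]
      have hsub : ((S + zon m τ j) + segment ℝ (0 : E 2) (τ • nrm (j * Real.pi / m))) \ S ⊆
          (((S + zon m τ j) + segment ℝ (0 : E 2) (τ • nrm (j * Real.pi / m))) \
            (S + zon m τ j)) ∪ ((S + zon m τ j) \ S) := by
        intro x hx
        by_cases h : x ∈ S + zon m τ j
        · exact Or.inr ⟨h, hx.2⟩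
        · exact Or.inl ⟨hx.1, h⟩
      refine (measure_mono (μ := volume) hsub).trans ((measure_union_le _ _).trans ?_)
      rw [add_comm]
      exact add_le_add ih (area_add (hP j).1 _ hτ.le)
  have hsum : ENNReal.ofReal (τ ^ 2 * ∑ k ∈ Finset.range m, ∑ i ∈ Finset.range k,
        Real.sin ((k - i : ℝ) * Real.pi / m)) =
      ∑ k ∈ Finset.range m, ENNReal.ofReal τ * ∑ i ∈ Finset.range k,
        ENNReal.ofReal (τ * Real.sin ((k - i : ℝ) * Real.pi / m)) := by
    have e1 : τ ^ 2 * ∑ k ∈ Finset.range m, ∑ i ∈ Finset.range k,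
        Real.sin ((k - i : ℝ) * Real.pi / m) = ∑ k ∈ Finset.range m, τ *
          ∑ i ∈ Finset.range k, τ * Real.sin ((k - i : ℝ) * Real.pi / m) := by
      rw [Finset.mul_sum]
      refine Finset.sum_congr rfl fun k _ => ?_
      rw [Finset.mul_sum, Finset.mul_sum]
      refine Finset.sum_congr rfl fun i _ => ?_
      ring
    have hpos : ∀ k ∈ Finset.range m, ∀ i ∈ Finset.range k,
        0 ≤ τ * Real.sin ((k - i : ℝ) * Real.pi / m) := by
      intro k hk i hi
      exact mul_nonneg hτ.le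
        (zona_sin_pos (Finset.mem_range.1 hk) (Finset.mem_range.1 hi)).le
    rw [e1, ENNReal.ofReal_sum_of_nonneg]
    · refine Finset.sum_congr rfl fun k hk => ?_
      rw [ENNReal.ofReal_mul hτ.le, ENNReal.ofReal_sum_of_nonneg (hpos k hk)]
    · intro k hk
      exact mul_nonneg hτ.le (Finset.sum_nonneg (hpos k hk))
  rw [hsum, Finset.mul_sum]
  refine (add_le_add (hV m) le_rfl).trans ?_
  rw [← Finset.sum_add_distrib]
  refine Finset.sum_le_sum fun k hk => ?_
  rw [← mul_add]
  exact mul_le_mul' le_rfl (hN k (Finset.mem_range.1 hk) k le_rfl)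

/-- PROOF: as `sin_sum_le`. -/
theorem sin_sum_ge {m : ℕ} (hm : 0 < m) :
    (m : ℝ) ^ 2 / Real.pi - m ≤
      ∑ k ∈ Finset.range m, ∑ i ∈ Finset.range k, Real.sin ((k - i : ℝ) * Real.pi / m) := by
  have hm' : (0 : ℝ) < m := by exact_mod_cast hm
  set g : ℕ → ℝ := fun j => Real.sin (j * Real.pi / m) with hg
  set S : ℕ → ℝ := fun k => ∑ j ∈ Finset.range k, g (j + 1) with hS
  have hinner : ∀ k : ℕ, ∑ i ∈ Finset.range k, Real.sin ((k - i : ℝ) * Real.pi / m) = S k := by
    intro k
    rw [hS]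
    simp only
    rw [← Finset.sum_range_reflect]
    refine Finset.sum_congr rfl fun i hi => ?_
    have h1 : i < k := Finset.mem_range.1 hi
    have h2 : (k : ℝ) - ((k - 1 - i : ℕ) : ℝ) = ((i + 1 : ℕ) : ℝ) := by
      rw [← Nat.cast_sub (by omega)]
      congr 1
      omega
    rw [h2]
  have hsym : ∀ j, j ≤ m → g (m - j) = g j := by
    intro j hj
    simp only [hg]
    rw [Nat.cast_sub hj]
    have h1 : ((m : ℝ) - j) * Real.pi / m = Real.pi - j * Real.pi / m := by
      field_simp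
    rw [h1, Real.sin_pi_sub]
  have hT : S (m - 1) = ∑ j ∈ Finset.range m, g j := by
    obtain ⟨n, rfl⟩ : ∃ n, m = n + 1 := ⟨m - 1, by omega⟩
    rw [Finset.sum_range_succ']
    have h1 : g 0 = 0 := by simp [hg]
    rw [h1, add_zero]
    rfl
  have hpair : ∀ k ∈ Finset.range m, S k + S (m - 1 - k) = S (m - 1) := by
    intro k hk
    have hkm : k < m := Finset.mem_range.1 hk
    obtain ⟨l, hl⟩ : ∃ l, m - 1 = k + l := ⟨m - 1 - k, by omega⟩
    have hl2 : m - 1 - k = l := by omega
    rw [hl2, hl]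
    have h1 : S (k + l) = S k + ∑ x ∈ Finset.range l, g (k + x + 1) := by
      rw [hS]
      simp only
      rw [Finset.sum_range_add]
    rw [h1]
    congr 1
    rw [hS]
    simp only
    rw [← Finset.sum_range_reflect]
    refine Finset.sum_congr rfl fun x hx => ?_
    have hxl : x < l := Finset.mem_range.1 hx
    have h2 : l - 1 - x + 1 = m - (k + x + 1) := by omega
    rw [h2, hsym _ (by omega)]
  have htwo : 2 * ∑ k ∈ Finset.range m, S k = m * S (m - 1) := by
    have h1 : ∑ k ∈ Finset.range m, S (m - 1 - k) = ∑ k ∈ Finset.range m, S k :=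
      Finset.sum_range_reflect S m
    have h2 : ∑ k ∈ Finset.range m, (S k + S (m - 1 - k)) = m * S (m - 1) := by
      rw [Finset.sum_congr rfl hpair, Finset.sum_const, Finset.card_range, nsmul_eq_mul]
    rw [Finset.sum_add_distrib, h1] at h2
    linarith
  have hR := riemann (K := 1) (f := Real.sin) (fun x y => by
    rw [one_mul]
    exact zonb_sin_lip x y) hm
  rw [integral_sin, Real.cos_zero, Real.cos_pi] at hR
  have hsum : ∑ k ∈ Finset.range m, Real.sin (k * Real.pi / m) = S (m - 1) := hT.symm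
  rw [hsum] at hR
  have h3 := (abs_le.1 hR).1
  have h4 : 2 * m / Real.pi - Real.pi / 2 ≤ S (m - 1) := by
    have hpi := Real.pi_pos
    have h5 : 2 - Real.pi ^ 2 / (2 * m) ≤ Real.pi / m * S (m - 1) := by
      have h6 : (1 : ℝ) * Real.pi ^ 2 / (2 * m) = Real.pi ^ 2 / (2 * m) := by rw [one_mul]
      linarith
    have h7 : S (m - 1) = (m / Real.pi) * (Real.pi / m * S (m - 1)) := by
      field_simp
    rw [h7]
    calc 2 * m / Real.pi - Real.pi / 2 = (m / Real.pi) * (2 - Real.pi ^ 2 / (2 * m)) := by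
          field_simp
      _ ≤ (m / Real.pi) * (Real.pi / m * S (m - 1)) :=
          mul_le_mul_of_nonneg_left h5 (by positivity)
  rw [Finset.sum_congr rfl fun k _ => hinner k]
  have h8 : ∑ k ∈ Finset.range m, S k = m / 2 * S (m - 1) := by linarith
  rw [h8]
  have hpi4 := Real.pi_lt_four
  calc (m : ℝ) ^ 2 / Real.pi - m ≤ (m : ℝ) ^ 2 / Real.pi - m * (Real.pi / 4) := by
        have h9 : (m : ℝ) * (Real.pi / 4) ≤ m * 1 :=
          mul_le_mul_of_nonneg_left (by linarith) hm'.le
        linarith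
    _ = (m : ℝ) / 2 * (2 * m / Real.pi - Real.pi / 2) := by
        have hpi := Real.pi_pos
        field_simp
        ring
    _ ≤ m / 2 * S (m - 1) := mul_le_mul_of_nonneg_left h4 (by positivity)

theorem abs_sin_sum_le (φ : ℝ) {m : ℕ} (hm : 0 < m) :
    ∑ k ∈ Finset.range m, |Real.sin (φ - k * Real.pi / m)| ≤ 2 * (m / Real.pi + 1) := by
  have hm' : (0 : ℝ) < m := Nat.cast_pos.mpr hm
  have h := riemann (K := 1) (f := fun x => |Real.sin (φ - x)|) (fun x y => by
    rw [one_mul]
    refine (abs_abs_sub_abs_le_abs_sub _ _).trans ?_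
    have h0 := Real.abs_sin_sub_sin_le (φ - x) (φ - y)
    have h1 : φ - x - (φ - y) = -(x - y) := by ring
    rwa [h1, abs_neg] at h0) hm
  rw [zonc_integral, abs_le] at h
  have h1 := h.2
  set s := ∑ k ∈ Finset.range m, |Real.sin (φ - k * Real.pi / m)| with hs
  have hpi := Real.pi_pos
  have h3 : Real.pi / m * s ≤ 2 + 1 * Real.pi ^ 2 / (2 * m) := by linarith
  have h4 : s ≤ m / Real.pi * (2 + 1 * Real.pi ^ 2 / (2 * m)) := by
    have := mul_le_mul_of_nonneg_left h3 (div_nonneg hm'.le hpi.le)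
    have e : m / Real.pi * (Real.pi / m * s) = s := by field_simp
    linarith
  have h5 : m / Real.pi * (2 + 1 * Real.pi ^ 2 / (2 * m)) = 2 * (m / Real.pi) + Real.pi / 2 := by
    field_simp
  rw [h5] at h4
  linarith [Real.pi_le_four]

theorem zon_inner_le (φ : ℝ) (m : ℕ) {τ : ℝ} (hτ : 0 ≤ τ) (j : ℕ) :
    ∀ a ∈ zon m τ j, ⟪dir φ, a⟫ ≤ τ / 2 * ∑ k ∈ Finset.range j, Real.sin (φ - k * Real.pi / m) +
      τ / 2 * ∑ k ∈ Finset.range j, |Real.sin (φ - k * Real.pi / m)| := by
  induction j with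
  | zero =>
    intro a ha
    unfold zon at ha
    rw [Finset.range_zero, Finset.sum_empty] at ha
    rw [Set.mem_zero.1 ha]
    simp
  | succ j ih =>
    intro a ha
    unfold zon at ha
    rw [Finset.sum_range_succ] at ha
    obtain ⟨b, hb, c, hc, rfl⟩ := Set.mem_add.1 ha
    have h1 := ih b hb
    rw [segment_eq_image'] at hc
    obtain ⟨s, hs, rfl⟩ := hc
    rw [inner_add_right, Finset.sum_range_succ, Finset.sum_range_succ]
    simp only [zero_add, sub_zero]
    rw [inner_smul_right, inner_smul_right, inner_dir_nrm']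
    set z := Real.sin (φ - j * Real.pi / m) with hz
    have h2 : s * (τ * z) ≤ τ / 2 * z + τ / 2 * |z| := by
      have h3 := le_abs_self z
      have h4 := neg_abs_le z
      have h5 : 0 ≤ τ * (1 - s) := mul_nonneg hτ (by linarith [hs.2])
      have h6 : 0 ≤ τ * s := mul_nonneg hτ hs.1
      nlinarith [mul_nonneg h5 (by linarith : 0 ≤ |z| + z), mul_nonneg h6 (by linarith : 0 ≤ |z| - z)]
    linarith

/-- The centred zonotope is contained in the disc of radius `τ (m/π + 1)`. -/
theorem zon_sub_ball {m : ℕ} (hm : 0 < m) {τ : ℝ} (hτ : 0 < τ) {a : E 2} (ha : a ∈ zon m τ m) :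
    ‖a - zc m τ‖ ≤ τ * (m / Real.pi + 1) := by
  obtain ⟨φ, hφ⟩ := zonc_polar (a - zc m τ)
  have h1 : ⟪dir φ, a - zc m τ⟫ = ‖a - zc m τ‖ := by
    nth_rewrite 1 [hφ]
    rw [inner_smul_right, inner_dir_dir', sub_self, Real.cos_zero, mul_one]
  rw [← h1, inner_sub_right, zonc_zc]
  have h2 := zon_inner_le φ m hτ.le m a ha
  have h3 := abs_sin_sum_le φ hm
  have h4 : τ / 2 * ∑ k ∈ Finset.range m, |Real.sin (φ - k * Real.pi / m)| ≤
      τ / 2 * (2 * (m / Real.pi + 1)) := mul_le_mul_of_nonneg_left h3 (by positivity)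
  linarith

/-- The sharp collar inequality. PROOF: as `tube_cobdd`. -/
theorem tube_cobdd_sharp {S : Set (E 2)} (hS : IsClosed S) (hc : IsConnected S)
    (hb : Bornology.IsBounded Sᶜ) {Lm : ℝ → ℝ}
    {l K : ℝ} (hL : ∀ x y, |Lm x - Lm y| ≤ K * |x - y|)
    (hN : ∀ θ, NN θ S ≤ ENNReal.ofReal (Lm θ / 2)) (h0 : ∀ θ, 0 ≤ Lm θ)
    (hint : ∫ θ in (0 : ℝ)..Real.pi, Lm θ ≤ 2 * l) {t : ℝ} (ht : 0 ≤ t) {x₀ : E 2}
    (hx₀ : t < infDist x₀ S) :
    volume ({x | infDist x S ≤ t} \ S) + ENNReal.ofReal (Real.pi * t ^ 2) ≤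
      ENNReal.ofReal (l * t) := by
  rcases ht.eq_or_lt with h | h
  · subst h
    have h1 : {x | infDist x S ≤ 0} \ S = ∅ := by
      rw [Set.sdiff_eq_empty]
      intro x hx
      have h2 : infDist x S = 0 := le_antisymm hx infDist_nonneg
      exact (hS.mem_iff_infDist_zero hc.nonempty).2 h2
    rw [h1, measure_empty]
    simp
  set F : ℕ → ℝ := fun m => (t / ((m : ℝ) / Real.pi - 1) * (m / Real.pi)) / 2 *
    (2 * l + K * Real.pi ^ 2 / (2 * m)) with hF
  have hFt : Filter.Tendsto F Filter.atTop (𝓝 (l * t)) := by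
    have e1 : l * t = t / 2 * (2 * l + 0) := by ring
    rw [e1]
    have h2 : Filter.Tendsto (fun m : ℕ => K * Real.pi ^ 2 / (2 * (m : ℝ))) Filter.atTop (𝓝 0) :=
      (Filter.Tendsto.const_mul_atTop two_pos tendsto_natCast_atTop_atTop).const_div_atTop _
    exact (tubeb_tau.div_const 2).mul (tendsto_const_nhds.add h2)
  set A : ℕ → ℝ := fun m => Real.pi * (t / ((m : ℝ) / Real.pi - 1) * (m / Real.pi)) ^ 2 -
    (t / ((m : ℝ) / Real.pi - 1) * (m / Real.pi)) ^ 2 * (Real.pi ^ 2 / m) with hAdef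
  have hAt : Filter.Tendsto A Filter.atTop (𝓝 (Real.pi * t ^ 2)) := by
    have e1 : Real.pi * t ^ 2 = Real.pi * t ^ 2 - t ^ 2 * 0 := by ring
    rw [e1]
    have h2 : Filter.Tendsto (fun m : ℕ => Real.pi ^ 2 / (m : ℝ)) Filter.atTop (𝓝 0) :=
      tendsto_natCast_atTop_atTop.const_div_atTop _
    exact ((tubeb_tau.pow 2).const_mul _).sub ((tubeb_tau.pow 2).mul h2)
  have hat : Filter.Tendsto (fun m : ℕ => (m : ℝ) / Real.pi - 1) Filter.atTop Filter.atTop :=
    Filter.tendsto_atTop_add_const_right _ _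
      (tendsto_natCast_atTop_atTop.atTop_div_const Real.pi_pos)
  have hτ0 : Filter.Tendsto (fun m : ℕ => t / ((m : ℝ) / Real.pi - 1)) Filter.atTop (𝓝 0) :=
    hat.const_div_atTop _
  have hrad : Filter.Tendsto (fun m : ℕ => t / ((m : ℝ) / Real.pi - 1) * (m / Real.pi) +
      t / ((m : ℝ) / Real.pi - 1)) Filter.atTop (𝓝 (t + 0)) := tubeb_tau.add hτ0
  rw [add_zero] at hrad
  refine le_of_tendsto_of_tendsto
    (tendsto_const_nhds.add ((ENNReal.continuous_ofReal.tendsto _).comp hAt))
    ((ENNReal.continuous_ofReal.tendsto _).comp hFt) ?_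
  filter_upwards [hat.eventually_gt_atTop 0, Filter.eventually_gt_atTop 0,
    hrad.eventually_lt_const hx₀] with m hm1 hm hmr
  have hm' : (0 : ℝ) < m := by exact_mod_cast hm
  have hτ : 0 < t / ((m : ℝ) / Real.pi - 1) := div_pos h hm1
  set τ := t / ((m : ℝ) / Real.pi - 1) with hτd
  have hτt : t ≤ τ * (m / Real.pi - 1) := by
    rw [hτd, div_mul_cancel₀ _ hm1.ne']
  have hne : (S + zon m τ m)ᶜ.Nonempty := by
    refine ⟨x₀ + zc m τ, fun hmem => ?_⟩
    obtain ⟨y, hy, z, hz, hyz⟩ := Set.mem_add.1 hmem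
    have h1 := zon_sub_ball hm hτ hz
    have h2 : x₀ - y = z - zc m τ := by
      rw [sub_eq_sub_iff_add_eq_add, ← hyz]
      abel
    have h3 : infDist x₀ S ≤ dist x₀ y := infDist_le_dist_of_mem hy
    rw [dist_eq_norm, h2] at h3
    have h4 : τ * (m / Real.pi + 1) = τ * (m / Real.pi) + τ := by ring
    rw [h4] at h1
    linarith
  change volume ({x | infDist x S ≤ t} \ S) + ENNReal.ofReal (A m) ≤ ENNReal.ofReal (F m)
  have hkey := zon_area_cobdd_sharp hS hc.isPreconnected hb hτ hne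
  have hpi := Real.pi_pos
  have hAle : A m ≤ τ ^ 2 * ∑ k ∈ Finset.range m,
      ∑ i ∈ Finset.range k, Real.sin ((k - i : ℝ) * Real.pi / m) := by
    have h1 := mul_le_mul_of_nonneg_left (sin_sum_ge hm) (sq_nonneg τ)
    have h2 : A m = τ ^ 2 * ((m : ℝ) ^ 2 / Real.pi - m) := by
      rw [hAdef]
      simp only
      rw [← hτd]
      field_simp
    rw [h2]
    exact h1
  refine (add_le_add (tubeb_vol hS hc.nonempty hb hm hτ hτt ht)
    (ENNReal.ofReal_le_ofReal hAle)).trans (hkey.trans ?_)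
  have hs1 : ∑ k ∈ Finset.range m, NN (k * Real.pi / m) S ≤
      ENNReal.ofReal (∑ k ∈ Finset.range m, Lm (k * Real.pi / m) / 2) := by
    rw [ENNReal.ofReal_sum_of_nonneg fun k _ => div_nonneg (h0 _) zero_le_two]
    exact Finset.sum_le_sum fun k _ => hN _
  have hR := (abs_le.1 (riemann hL hm)).2
  have hs3 : ∑ k ∈ Finset.range m, Lm (k * Real.pi / m) ≤
      m / Real.pi * (2 * l + K * Real.pi ^ 2 / (2 * m)) := by
    have e2 : ∑ k ∈ Finset.range m, Lm (k * Real.pi / m) =
        m / Real.pi * (Real.pi / m * ∑ k ∈ Finset.range m, Lm (k * Real.pi / m)) := by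
      have e0 : (m : ℝ) / Real.pi * (Real.pi / m) = 1 := by field_simp
      rw [← mul_assoc, e0, one_mul]
    rw [e2]
    exact mul_le_mul_of_nonneg_left (by linarith) (by positivity)
  calc ENNReal.ofReal τ * (∑ k ∈ Finset.range m, NN (k * Real.pi / m) S)
      ≤ ENNReal.ofReal τ * ENNReal.ofReal (∑ k ∈ Finset.range m, Lm (k * Real.pi / m) / 2) :=
        mul_le_mul' le_rfl hs1
    _ = ENNReal.ofReal (τ * (∑ k ∈ Finset.range m, Lm (k * Real.pi / m) / 2)) := by
        rw [← ENNReal.ofReal_mul hτ.le]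
    _ ≤ ENNReal.ofReal (F m) := by
        refine ENNReal.ofReal_le_ofReal ?_
        have e3 : ∑ k ∈ Finset.range m, Lm (k * Real.pi / m) / 2 =
            (∑ k ∈ Finset.range m, Lm (k * Real.pi / m)) / 2 := by
          rw [Finset.sum_div]
        rw [e3, hF]
        simp only
        rw [← hτd]
        have e5 : τ * (m / Real.pi) / 2 * (2 * l + K * Real.pi ^ 2 / (2 * m)) =
            τ * ((m / Real.pi * (2 * l + K * Real.pi ^ 2 / (2 * m))) / 2) := by
          ring
        rw [e5]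
        refine mul_le_mul_of_nonneg_left ?_ hτ.le
        linarith

end Pool.Agent.RP
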