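import Pool.Agent.H.MP_1b807b_an.A.TubeUUB
import Pool.Agent.H.MP_1b807b_an.P.TubeS
import Pool.Agent.H.MP_1b807b_an.P.Level

/-! MP_1b807b_an, planar domains, module CompS: the sharp collar inequality for the unbounded
component of the complement -/

set_option autoImplicit false

namespace Pool.Agent.RP

open MeasureTheory Metric Set Pool.Agent.RG Pool.Agent.RA
open scoped RealInnerProductSpace ENNReal Topology

variable {D : Domain 2} (J : JordanBoundary D)

theorem tube_comp_unbdd_sharp {i : Fin J.N} (hi : ¬ Bornology.IsBounded (J.comp i)) {t : ℝ}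
    (ht : 0 ≤ t) {x₀ : E 2} (hx₀ : t < infDist x₀ (J.comp i)) :
    volume ({x | infDist x (J.comp i) ≤ t} \ J.comp i) + ENNReal.ofReal (Real.pi * t ^ 2) ≤
      ENNReal.ofReal (D.surface.real (J.comp i) * t) := by
  obtain ⟨Lm, h1, h2, h3, h4⟩ := dl_real J (comp_isClosed J i)
  have hN : ∀ θ, NN θ (J.comp i) ≤ ENNReal.ofReal (Lm θ / 2) :=
    fun θ => tubeuub_half (h1 θ ▸ NN_comp_le J i θ)
  rcases comp_dich J i with hc | hb
  · exact absurd hc.isBounded hi
  · exact tube_cobdd_sharp (comp_isClosed J i) (comp_conn J i) hb h3 hN h2 h4 ht hx₀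

end Pool.Agent.RP
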