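import Pool.Agent.H.MP_1b807b_an.C.W0Energy
import Pool.Agent.H.MP_1b807b_an.P.Cake

/-! MP_1b807b_an, planar domains, module EnergyP: the energy of the cut-off profile of the disc
under a bound for the distribution function of the depth -/

set_option autoImplicit false

namespace Pool.Agent.RP

open MeasureTheory Metric Set
open Pool.Agent.RG Pool.Agent.RC

theorem hasDerivAt_EE (k s : ℝ) : HasDerivAt (PhXAux.EE k)
    (2 * k ^ 3 * I1 (k * s) * (2 * I0 (k * s) - PhXAux.qq (k * s))) s := by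
  have h0 := (PhXAux.hasDerivAt_g k s).pow 2
  have h1 := ((PhXAux.hasDerivAt_I1 (k * s)).comp s ((hasDerivAt_id s).const_mul k)).pow 2
  have h := (h0.add h1).const_mul (k ^ 2)
  refine h.congr_deriv ?_
  simp only [Function.comp, id]
  push_cast
  ring

theorem point_eq {k σ t : ℝ} (hσ1 : σ < 1) (ht : 0 ≤ t) :
    I0 k ^ 2 * (MW k σ t ^ 2 + k ^ 2 * fW k σ t ^ 2) =
      k ^ 2 * I0 (k * σ) ^ 2 +
        (if t ≤ 1 - σ then (PhXAux.EE k (1 - t) - k ^ 2 * I0 (k * σ) ^ 2) else 0) := by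
  have hI := (I0_pos k).ne'
  rcases le_or_gt t (1 - σ) with h | h
  · rw [if_pos h]
    have hM : MW k σ t = k * I1 (k * (1 - t)) / I0 k := by
      unfold MW
      rw [if_pos h, max_eq_left ht]
    have hf : fW k σ t = I0 (k * (1 - t)) / I0 k := by
      unfold fW
      split_ifs with h0
      · have : t = 0 := le_antisymm h0 ht
        subst this
        rw [sub_zero, mul_one, div_self hI]
      · rw [max_eq_left (by linarith : σ ≤ 1 - t)]
    rw [hM, hf]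
    unfold PhXAux.EE
    field_simp
    ring
  · rw [if_neg (not_le.2 h)]
    have hM : MW k σ t = 0 := by
      unfold MW
      rw [if_neg (not_le.2 h)]
    have hf : fW k σ t = I0 (k * σ) / I0 k := by
      unfold fW
      rw [if_neg (by linarith : ¬ t ≤ 0), max_eq_right (by linarith : 1 - t ≤ σ)]
    rw [hM, hf]
    field_simp
    ring

theorem energy_core {k σ L : ℝ} (hk : 0 < k) (hσ : 0 ≤ σ) (hσ1 : σ < 1)
    (hlen : L - 2 * Real.pi = Real.pi * σ ^ 2 / (1 - σ)) {X : Type*} [MeasurableSpace X]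
    {μ : Measure X} [IsFiniteMeasure μ] {δ : X → ℝ} (hδ : Measurable δ) (hδ0 : ∀ x, 0 ≤ δ x)
    (hμ : μ.real univ = Real.pi)
    (hν : ∀ t ∈ Icc 0 (1 - σ), μ.real {x | δ x ≤ t} ≤ L * t - Real.pi * t ^ 2) :
    I0 k ^ 2 * (∫ x, (MW k σ (δ x) ^ 2 + k ^ 2 * fW k σ (δ x) ^ 2) ∂μ) ≤
      (∫ t in (0 : ℝ)..1 - σ, (PhXAux.EE k (1 - t) - k ^ 2 * I0 (k * σ) ^ 2) *
        (L - 2 * Real.pi * t)) + k ^ 2 * I0 (k * σ) ^ 2 * Real.pi := by
  have hT : 0 ≤ 1 - σ := by linarith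
  have hG : ∀ t, HasDerivAt (fun t => PhXAux.EE k (1 - t) - k ^ 2 * I0 (k * σ) ^ 2)
      (-(2 * k ^ 3 * I1 (k * (1 - t)) * (2 * I0 (k * (1 - t)) - PhXAux.qq (k * (1 - t))))) t := by
    intro t
    have h := ((hasDerivAt_EE k (1 - t)).comp t ((hasDerivAt_id t).const_sub 1)).sub_const
      (k ^ 2 * I0 (k * σ) ^ 2)
    refine h.congr_deriv ?_
    ring
  have hG' : Continuous fun t : ℝ => -(2 * k ^ 3 * I1 (k * (1 - t)) *
      (2 * I0 (k * (1 - t)) - PhXAux.qq (k * (1 - t)))) := by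
    have := PhXAux.continuous_I0
    have := PhXAux.continuous_I1
    have := PhXAux.continuous_qq
    fun_prop
  have hneg : ∀ t ∈ Icc 0 (1 - σ), -(2 * k ^ 3 * I1 (k * (1 - t)) *
      (2 * I0 (k * (1 - t)) - PhXAux.qq (k * (1 - t)))) ≤ 0 := by
    intro t ht
    have hEanti : AntitoneOn (fun t => PhXAux.EE k (1 - t) - k ^ 2 * I0 (k * σ) ^ 2) (Iic 1) := by
      intro a ha b hb hab
      have := W0Aux.EE_mono hk (a := 1 - b) (b := 1 - a) (mem_Ici.2 (by linarith [mem_Iic.1 hb]))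
        (mem_Ici.2 (by linarith [mem_Iic.1 ha])) (by linarith)
      simp only
      linarith
    rcases (ht.2.trans (by linarith : 1 - σ ≤ 1)).lt_or_eq with h1 | h1
    · by_contra hcon
      push Not at hcon
      have hd := (hG t).hasDerivWithinAt (s := Iic 1)
      have hd2 : HasDerivWithinAt (fun t => PhXAux.EE k (1 - t) - k ^ 2 * I0 (k * σ) ^ 2)
        (-(2 * k ^ 3 * I1 (k * (1 - t)) * (2 * I0 (k * (1 - t)) - PhXAux.qq (k * (1 - t)))))
        (Iic 1) t := hd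
      have h3 := hEanti.derivWithin_nonpos (x := t)
      rw [hd2.derivWithin ((uniqueDiffOn_Iic 1) t h1.le)] at h3
      exact absurd h3 (not_le.2 hcon)
    · rw [h1, sub_self, mul_zero]
      have : I1 0 = 0 := by
        rw [PhXAux.I1_eq]
        ring
      rw [this]
      simp
  have hcake := cake (μ := μ) hδ hδ0 hT hG hG' hneg
    (by
      have h := W0Aux.Phi0_le hk hσ (le_refl σ)
      simp only [sub_sub_cancel]
      linarith) hν
  have hEc := PhXAux.continuous_EE k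
  have hfm : Measurable fun x => (if δ x ≤ 1 - σ then
      (PhXAux.EE k (1 - δ x) - k ^ 2 * I0 (k * σ) ^ 2) else 0) := by
    refine Measurable.ite (hδ measurableSet_Iic) ?_ measurable_const
    exact ((hEc.measurable.comp (measurable_const.sub hδ)).sub measurable_const)
  have hfi : Integrable (fun x => (if δ x ≤ 1 - σ then
      (PhXAux.EE k (1 - δ x) - k ^ 2 * I0 (k * σ) ^ 2) else 0)) μ := by
    refine Integrable.of_bound (C := PhXAux.EE k 1) hfm.aestronglyMeasurable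
      (Filter.Eventually.of_forall fun x => ?_)
    have hE1 : 0 ≤ PhXAux.EE k 1 := by
      unfold PhXAux.EE
      positivity
    split_ifs with hx
    · have h1 := W0Aux.Phi0_le hk hσ (by linarith : σ ≤ 1 - δ x)
      have h2 := W0Aux.EE_mono hk (a := 1 - δ x) (b := 1) (mem_Ici.2 (by linarith))
        (mem_Ici.2 zero_le_one) (by linarith [hδ0 x])
      have h3 : 0 ≤ k ^ 2 * I0 (k * σ) ^ 2 := by positivity
      rw [Real.norm_of_nonneg (by linarith)]
      linarith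
    · simpa using hE1
  rw [← integral_const_mul]
  have e1 : ∫ x, I0 k ^ 2 * (MW k σ (δ x) ^ 2 + k ^ 2 * fW k σ (δ x) ^ 2) ∂μ =
      ∫ x, (k ^ 2 * I0 (k * σ) ^ 2 + (if δ x ≤ 1 - σ then
        (PhXAux.EE k (1 - δ x) - k ^ 2 * I0 (k * σ) ^ 2) else 0)) ∂μ :=
    integral_congr_ae (Filter.Eventually.of_forall fun x => point_eq hσ1 (hδ0 x))
  rw [e1, integral_add (integrable_const _) hfi, integral_const, hμ, smul_eq_mul]
  linarith

/-- the energy bound -/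
theorem energy_bound {k σ L : ℝ} (hk : 0 < k) (hσ : 0 ≤ σ) (hσ1 : σ < 1)
    (hlen : L - 2 * Real.pi = Real.pi * σ ^ 2 / (1 - σ)) {X : Type*} [MeasurableSpace X]
    {μ : Measure X} [IsFiniteMeasure μ] {δ : X → ℝ} (hδ : Measurable δ) (hδ0 : ∀ x, 0 ≤ δ x)
    (hμ : μ.real univ = Real.pi)
    (hν : ∀ t ∈ Icc 0 (1 - σ), μ.real {x | δ x ≤ t} ≤ L * t - Real.pi * t ^ 2) :
    I0 k ^ 2 * ((∫ x, (MW k σ (δ x) ^ 2 + k ^ 2 * fW k σ (δ x) ^ 2) ∂μ) - k * GG k * L) ≤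
      Real.pi * (k ^ 2 * σ ^ 2) / (1 - σ) *
        ((∫ s in σ..1, rr (k * s)) - (2 - σ) * rr (k * σ)) := by
  have hone : 0 < 1 - σ := by linarith
  have hlim := energy_core hk hσ hσ1 hlen hδ hδ0 hμ hν
  rw [W0Aux.int_main hσ1 hlen, W0Aux.int_EE, W0Aux.int_sEE, W0Aux.int_JJ hk.ne'] at hlim
  have hG1 : PhXAux.Gg k 1 = I0 k ^ 2 * (k * GG k) := by
    have hI := (I0_pos k).ne'
    unfold PhXAux.Gg
    rw [GG_eq, mul_one]
    field_simp
  have hGσ : σ * PhXAux.Gg k σ = σ ^ 2 * (k ^ 2 * rr (k * σ)) := by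
    rcases eq_or_ne σ 0 with h | h
    · subst h; simp
    · rw [PhXAux.Gg_eq, W0Aux.JJ_eq hk.ne' h]; ring
  have hGσ2 : (L - 2 * Real.pi) * PhXAux.Gg k σ =
      Real.pi * σ ^ 2 / (1 - σ) * (σ * (k ^ 2 * rr (k * σ))) := by
    rw [hlen]
    rcases eq_or_ne σ 0 with h | h
    · subst h; simp
    · rw [PhXAux.Gg_eq, W0Aux.JJ_eq hk.ne' h]
  have hL2 : L = 2 * Real.pi + Real.pi * σ ^ 2 / (1 - σ) := by linarith
  rw [hlen] at hGσ2 hlim
  rw [mul_sub, hL2]
  have hfinal : Real.pi * (k ^ 2 * σ ^ 2) / (1 - σ) *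
        ((∫ s in σ..1, rr (k * s)) - (2 - σ) * rr (k * σ)) =
      Real.pi * σ ^ 2 / (1 - σ) * (k ^ 2 * ∫ s in σ..1, rr (k * s)) -
        Real.pi * σ ^ 2 / (1 - σ) * (σ * (k ^ 2 * rr (k * σ))) -
        2 * Real.pi * (σ ^ 2 * (k ^ 2 * rr (k * σ))) := by
    field_simp
    ring
  rw [hfinal]
  have e3 : Real.pi * σ ^ 2 / (1 - σ) * (PhXAux.Gg k 1 - PhXAux.Gg k σ +
        k ^ 2 * ∫ s in σ..1, rr (k * s)) + 2 * Real.pi * (PhXAux.Gg k 1 - σ * PhXAux.Gg k σ) =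
      Real.pi * σ ^ 2 / (1 - σ) * PhXAux.Gg k 1 - Real.pi * σ ^ 2 / (1 - σ) * PhXAux.Gg k σ +
        Real.pi * σ ^ 2 / (1 - σ) * (k ^ 2 * ∫ s in σ..1, rr (k * s)) +
        2 * Real.pi * PhXAux.Gg k 1 - 2 * Real.pi * (σ * PhXAux.Gg k σ) := by ring
  rw [e3, hGσ2, hGσ, hG1] at hlim
  have e4 : I0 k ^ 2 * (k * GG k * (2 * Real.pi + Real.pi * σ ^ 2 / (1 - σ))) =
      Real.pi * σ ^ 2 / (1 - σ) * (I0 k ^ 2 * (k * GG k)) +
        2 * Real.pi * (I0 k ^ 2 * (k * GG k)) := by ring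
  rw [e4]
  linarith

end Pool.Agent.RP
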