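import Pool.Agent.H.MP_1b807b_an.P.DepthP
import Pool.Agent.H.MP_1b807b_an.P.EnergyP
import Pool.Agent.H.MP_1b807b_an.P.LipTest
import Pool.Agent.H.MP_1b807b_an.C.CaseW0
import Pool.Agent.H.MP_1b807b_an.C.BallK
import Pool.Agent.H.MP_1b807b_an.C.Phi

/-! MP_1b807b_an, planar domains, module MainP: the disc among all planar domains -/

set_option autoImplicit false

namespace Pool.Agent.RP

open MeasureTheory Metric Set Pool.Agent.RG Pool.Agent.RA Filter
open Pool.Agent.RC (I0 I1 GG rr fW MW I0_pos I0_mono fW_mem fW_lip fW_slope MW_mem measurable_MW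
  continuous_fW W0_mono exists_cut exists_k k_mono robin_ball_scale)
open scoped RealInnerProductSpace ENNReal Topology

theorem geom_L {L r : ℝ} (hr : 0 < r) (h : Real.pi ≤ L * r - Real.pi * r ^ 2) :
    2 * Real.pi ≤ L := by
  have hpi := Real.pi_pos
  have h1 : 0 ≤ Real.pi * (r - 1) ^ 2 := by positivity
  by_contra hc
  push Not at hc
  nlinarith

theorem geom_T {L r σ : ℝ} (hσ : 0 ≤ σ) (hσ1 : σ < 1)
    (hlen : L - 2 * Real.pi = Real.pi * σ ^ 2 / (1 - σ))
    (h : Real.pi ≤ L * r - Real.pi * r ^ 2) : 1 - σ ≤ r := by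
  have hpi := Real.pi_pos
  have hone : 0 < 1 - σ := by linarith
  by_contra hc
  push Not at hc
  have h1 : L * (1 - σ) = Real.pi * (1 + (1 - σ) ^ 2) := by
    have : L = 2 * Real.pi + Real.pi * σ ^ 2 / (1 - σ) := by linarith
    rw [this]
    field_simp
    ring
  have h2 : Real.pi * (1 - σ) ≤ (L * r - Real.pi * r ^ 2) * (1 - σ) :=
    mul_le_mul_of_nonneg_right h hone.le
  have h3 : (L * r - Real.pi * r ^ 2) * (1 - σ) = Real.pi * ((1 + (1 - σ) ^ 2) * r - r ^ 2 * (1 - σ)) := by
    calc (L * r - Real.pi * r ^ 2) * (1 - σ) = (L * (1 - σ)) * r - Real.pi * r ^ 2 * (1 - σ) := by ring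
      _ = _ := by rw [h1]; ring
  rw [h3] at h2
  have h4 : (1 - σ) ≤ (1 + (1 - σ) ^ 2) * r - r ^ 2 * (1 - σ) := le_of_mul_le_mul_left h2 hpi
  have h5 : 0 < (1 - (1 - σ) * r) * ((1 - σ) - r) := by
    refine mul_pos ?_ (by linarith)
    nlinarith
  nlinarith

theorem geom_q {L σ : ℝ} (hσ1 : σ < 1) (hlen : L - 2 * Real.pi = Real.pi * σ ^ 2 / (1 - σ)) :
    L * (1 - σ) - Real.pi * (1 - σ) ^ 2 = Real.pi := by
  have hone : (1 - σ) ≠ 0 := by linarith
  have : L = 2 * Real.pi + Real.pi * σ ^ 2 / (1 - σ) := by linarith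
  rw [this]
  field_simp
  ring

variable {D : Domain 2} {S : Set (E 2)} {ℓ r R : ℝ}

/-- the gradient of the test function -/
theorem grad_bound (hS : IsClosed S) (hSne : S.Nonempty) (hR : 0 < R) {k σ : ℝ} (hk : 0 < k)
    (hσ : 0 ≤ σ) (hσ1 : σ < 1) {x : E 2} (hx : x ∉ S) :
    ‖fderiv ℝ (fun x => fW k σ (infDist x S / R)) x‖ ≤ MW k σ (infDist x S / R) / R := by
  set v : E 2 → ℝ := fun x => fW k σ (infDist x S / R) with hv
  set t := infDist x S / R with ht
  have htpos : 0 < t := div_pos ((hS.notMem_iff_infDist_pos hSne).1 hx) hR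
  have hM := (MW_mem hk hσ hσ1.le t).1
  by_cases hd : DifferentiableAt ℝ v x
  · refine le_of_forall_pos_le_add fun e he => ?_
    obtain ⟨η, hη, hsl⟩ := fW_slope hk hσ hσ1 htpos (e := e * R) (by positivity)
    have hC : 0 ≤ MW k σ t / R + e := by positivity
    refine hd.hasFDerivAt.le_of_lip' hC ?_
    have hnear : ∀ᶠ y in 𝓝 x, |infDist y S / R - t| < η := by
      have hc : ContinuousAt (fun y => infDist y S / R) x :=
        ((continuous_infDist_pt S).div_const R).continuousAt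
      have := Metric.tendsto_nhds.1 hc η hη
      simpa [Real.dist_eq] using this
    filter_upwards [hnear] with y hy
    have h1 := hsl _ t hy (by rw [sub_self, abs_zero]; exact hη)
    have h2 : |infDist y S / R - t| ≤ ‖y - x‖ / R := by
      rw [ht, ← sub_div, abs_div, abs_of_pos hR]
      refine div_le_div_of_nonneg_right ?_ hR.le
      have := (lipschitz_infDist_pt S).dist_le_mul y x
      rwa [NNReal.coe_one, one_mul, Real.dist_eq, dist_eq_norm] at this
    rw [Real.norm_eq_abs]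
    have h3 : 0 ≤ MW k σ t + e * R := by positivity
    calc |v y - v x| ≤ (MW k σ t + e * R) * |infDist y S / R - t| := h1
      _ ≤ (MW k σ t + e * R) * (‖y - x‖ / R) := mul_le_mul_of_nonneg_left h2 h3
      _ = (MW k σ t / R + e) * ‖y - x‖ := by field_simp
  · rw [fderiv_zero_of_not_differentiableAt hd, norm_zero]
    positivity

/-- the energy of the test function -/
theorem energy_D (h : Outer D S ℓ r) (hR : 0 < R)
    (hvol : volume.real D.carrier = Real.pi * R ^ 2) {k σ : ℝ} (hk : 0 < k) (hσ : 0 ≤ σ)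
    (hσ1 : σ < 1) (hlen : ℓ / R - 2 * Real.pi = Real.pi * σ ^ 2 / (1 - σ)) :
    I0 k ^ 2 * ((∫ x in D.carrier, (MW k σ (infDist x S / R) ^ 2 +
      k ^ 2 * fW k σ (infDist x S / R) ^ 2)) - k * GG k * (ℓ * R)) ≤
      R ^ 2 * (Real.pi * (k ^ 2 * σ ^ 2) / (1 - σ) *
        ((∫ s in σ..1, rr (k * s)) - (2 - σ) * rr (k * σ))) := by
  have hpi := Real.pi_pos
  have hfin : IsFiniteMeasure (volume.restrict D.carrier) :=
    ⟨by rw [Measure.restrict_apply_univ]; exact D.isBounded.measure_lt_top⟩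
  have hfinv : volume D.carrier ≠ ⊤ := D.isBounded.measure_lt_top.ne
  set c : ℝ≥0∞ := ENNReal.ofReal (1 / R ^ 2) with hc
  have hcr : c.toReal = 1 / R ^ 2 := ENNReal.toReal_ofReal (by positivity)
  set μ : Measure (E 2) := c • volume.restrict D.carrier with hμd
  have hμfin : IsFiniteMeasure μ := by
    refine ⟨?_⟩
    rw [hμd, Measure.smul_apply, smul_eq_mul]
    exact ENNReal.mul_lt_top ENNReal.ofReal_lt_top (measure_lt_top _ _)
  set δ : E 2 → ℝ := fun x => infDist x S / R with hδd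
  have hδm : Measurable δ := ((continuous_infDist_pt S).div_const R).measurable
  have hδ0 : ∀ x, 0 ≤ δ x := fun x => div_nonneg infDist_nonneg hR.le
  have hμreal : ∀ A : Set (E 2), MeasurableSet A → μ.real A =
      1 / R ^ 2 * volume.real (D.carrier ∩ A) := by
    intro A hA
    rw [Measure.real, hμd, Measure.smul_apply, smul_eq_mul, ENNReal.toReal_mul, hcr,
      Measure.restrict_apply hA, inter_comm]
    rfl
  have hμ : μ.real univ = Real.pi := by
    rw [hμreal _ MeasurableSet.univ, inter_univ, hvol]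
    field_simp
  set L := ℓ / R with hL
  have hrR : Real.pi ≤ L * (r / R) - Real.pi * (r / R) ^ 2 := by
    have h1 : volume.real D.carrier ≤ volume.real Sᶜ :=
      measureReal_mono h.sub h.bdd.measure_lt_top.ne
    have h2 := h.vol
    rw [hvol] at h1
    have h3 : Real.pi * R ^ 2 ≤ ℓ * r - Real.pi * r ^ 2 := h1.trans h2
    rw [hL]
    have h4 : ℓ / R * (r / R) - Real.pi * (r / R) ^ 2 = (ℓ * r - Real.pi * r ^ 2) / R ^ 2 := by
      field_simp
    rw [h4, le_div_iff₀ (by positivity)]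
    exact h3
  have hTr := geom_T hσ hσ1 hlen hrR
  have hq := geom_q hσ1 hlen
  have hν : ∀ t ∈ Icc 0 (1 - σ), μ.real {x | δ x ≤ t} ≤ L * t - Real.pi * t ^ 2 := by
    intro t ht
    rcases ht.2.lt_or_eq with h1 | h1
    · have hset : {x | δ x ≤ t} = {x | infDist x S ≤ t * R} := by
        ext x
        simp only [mem_setOf_eq, hδd]
        rw [div_le_iff₀ hR]
      have hm : MeasurableSet {x : E 2 | infDist x S ≤ t * R} :=
        measurableSet_le (continuous_infDist_pt S).measurable measurable_const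
      rw [hset, hμreal _ hm]
      have h2 : t * R < r := by
        have : t < r / R := h1.trans_le hTr
        rwa [lt_div_iff₀ hR] at this
      have h3 := h.tube (t * R) (mul_nonneg ht.1 hR.le) h2
      calc 1 / R ^ 2 * volume.real (D.carrier ∩ {x | infDist x S ≤ t * R})
          ≤ 1 / R ^ 2 * (ℓ * (t * R) - Real.pi * (t * R) ^ 2) :=
            mul_le_mul_of_nonneg_left h3 (by positivity)
        _ = L * t - Real.pi * t ^ 2 := by
            rw [hL]
            field_simp
    · rw [h1, hq, ← hμ]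
      exact measureReal_mono (subset_univ _)
  have hE := energy_bound hk hσ hσ1 hlen hδm hδ0 hμ hν
  have hint : ∫ x, (MW k σ (δ x) ^ 2 + k ^ 2 * fW k σ (δ x) ^ 2) ∂μ =
      1 / R ^ 2 * ∫ x in D.carrier, (MW k σ (δ x) ^ 2 + k ^ 2 * fW k σ (δ x) ^ 2) := by
    rw [hμd, integral_smul_measure, hcr, smul_eq_mul]
  rw [hint] at hE
  have hR2 : 0 < R ^ 2 := by positivity
  have h5 := mul_le_mul_of_nonneg_left hE hR2.le
  refine le_trans (le_of_eq ?_) h5
  rw [hL]
  simp only [hδd]
  field_simp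

/-- the main estimate -/
theorem planar_core (h : Outer D S ℓ r) (hR : 0 < R)
    (hvol : volume.real D.carrier = Real.pi * R ^ 2) {k σ : ℝ} (hk : 0 < k) (hσ : 0 ≤ σ)
    (hσ1 : σ < 1) (hlen : ℓ / R - 2 * Real.pi = Real.pi * σ ^ 2 / (1 - σ))
    (hW : ∫ s in σ..1, rr (k * s) ≤ (2 - σ) * rr (k * σ)) :
    D.robin (-(k * GG k / R)) ≤ ((-(k / R) ^ 2 : ℝ) : EReal) := by
  have hpi := Real.pi_pos
  have hfin : IsFiniteMeasure (volume.restrict D.carrier) :=
    ⟨by rw [Measure.restrict_apply_univ]; exact D.isBounded.measure_lt_top⟩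
  have hfin' := D.isFinite
  have hms : MeasurableSet D.carrier := D.isOpen.measurableSet
  have hmem : ∀ᵐ x ∂(volume.restrict D.carrier), x ∈ D.carrier := ae_restrict_mem hms
  have hI := I0_pos k
  have hE := energy_D h hR hvol hk hσ hσ1 hlen
  have hβ : 0 ≤ k * GG k := by
    have := Pool.Agent.H.MP_1b807b_an.F_pos 1 hk
    unfold GG
    positivity
  have hE0 : (∫ x in D.carrier, (MW k σ (infDist x S / R) ^ 2 +
      k ^ 2 * fW k σ (infDist x S / R) ^ 2)) ≤ k * GG k * (ℓ * R) := by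
    have h1 : R ^ 2 * (Real.pi * (k ^ 2 * σ ^ 2) / (1 - σ) *
        ((∫ s in σ..1, rr (k * s)) - (2 - σ) * rr (k * σ))) ≤ 0 := by
      have h2 : 0 ≤ R ^ 2 * (Real.pi * (k ^ 2 * σ ^ 2) / (1 - σ)) := by
        have : 0 < 1 - σ := by linarith
        positivity
      have h3 : (∫ s in σ..1, rr (k * s)) - (2 - σ) * rr (k * σ) ≤ 0 := by linarith
      calc R ^ 2 * (Real.pi * (k ^ 2 * σ ^ 2) / (1 - σ) *
          ((∫ s in σ..1, rr (k * s)) - (2 - σ) * rr (k * σ))) =
          (R ^ 2 * (Real.pi * (k ^ 2 * σ ^ 2) / (1 - σ))) *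
            ((∫ s in σ..1, rr (k * s)) - (2 - σ) * rr (k * σ)) := by ring
        _ ≤ 0 := mul_nonpos_of_nonneg_of_nonpos h2 h3
    have h4 := hE.trans h1
    have h5 : 0 < I0 k ^ 2 := by positivity
    have h6 := nonpos_of_mul_nonpos_right h4 h5
    linarith
  set v : E 2 → ℝ := fun x => fW k σ (infDist x S / R) with hv
  have cv : Continuous v := (continuous_fW hσ1.le).comp ((continuous_infDist_pt S).div_const R)
  have hvmem : ∀ x, 1 / I0 k ≤ v x ∧ v x ≤ 1 := fun x => fW_mem hk hσ hσ1.le _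
  have hvL : ∀ x y, |v x - v y| ≤ k / R * ‖x - y‖ := by
    intro x y
    refine (fW_lip hk hσ hσ1.le _ _).trans ?_
    have h2 : |infDist x S / R - infDist y S / R| ≤ ‖x - y‖ / R := by
      rw [← sub_div, abs_div, abs_of_pos hR]
      refine div_le_div_of_nonneg_right ?_ hR.le
      have := (lipschitz_infDist_pt S).dist_le_mul x y
      rwa [NNReal.coe_one, one_mul, Real.dist_eq, dist_eq_norm] at this
    calc k * |infDist x S / R - infDist y S / R| ≤ k * (‖x - y‖ / R) :=
          mul_le_mul_of_nonneg_left h2 hk.le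
      _ = k / R * ‖x - y‖ := by ring
  have hv1 : ∀ x ∈ S, v x = 1 := by
    intro x hx
    rw [hv]
    simp only
    rw [infDist_zero_of_mem hx, zero_div]
    unfold fW
    rw [if_pos le_rfl]
  have hv2i : Integrable (fun x => v x ^ 2) (volume.restrict D.carrier) := by
    refine Integrable.of_bound (C := 1) (cv.pow 2).aestronglyMeasurable
      (Filter.Eventually.of_forall fun x => ?_)
    rw [Real.norm_of_nonneg (by positivity)]
    have h1 := hvmem x
    exact pow_le_one₀ (le_trans (by positivity) h1.1) h1.2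
  have hvolpos : 0 < volume.real D.carrier := by rw [hvol]; positivity
  have hpos : 0 < ∫ x in D.carrier, v x ^ 2 := by
    have h1 : ∫ x in D.carrier, (1 / I0 k) ^ 2 ≤ ∫ x in D.carrier, v x ^ 2 := by
      refine integral_mono (integrable_const _) hv2i fun x => ?_
      exact pow_le_pow_left₀ (by positivity) (hvmem x).1 2
    rw [setIntegral_const, smul_eq_mul] at h1
    exact lt_of_lt_of_le (by positivity) h1
  have hgrad : ∀ x ∈ D.carrier, ‖fderiv ℝ v x‖ ^ 2 ≤ MW k σ (infDist x S / R) ^ 2 / R ^ 2 := by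
    intro x hx
    have h1 := grad_bound h.closed h.ne hR hk hσ hσ1 (h.sub hx)
    rw [← div_pow]
    exact pow_le_pow_left₀ (norm_nonneg _) h1 2
  have hMi : Integrable (fun x => MW k σ (infDist x S / R) ^ 2) (volume.restrict D.carrier) := by
    refine Integrable.of_bound (C := k ^ 2) ?_ (Filter.Eventually.of_forall fun x => ?_)
    · exact (((measurable_MW k σ).comp
        ((continuous_infDist_pt S).div_const R).measurable).pow_const 2).aestronglyMeasurable
    · rw [Real.norm_of_nonneg (by positivity)]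
      have h1 := MW_mem hk hσ hσ1.le (infDist x S / R)
      exact pow_le_pow_left₀ h1.1 h1.2 2
  have hnum : (∫ x in D.carrier, ‖fderiv ℝ v x‖ ^ 2) ≤
      ∫ x in D.carrier, MW k σ (infDist x S / R) ^ 2 / R ^ 2 := by
    refine integral_mono_of_nonneg (Filter.Eventually.of_forall fun x => by positivity)
      (hMi.div_const _) ?_
    filter_upwards [hmem] with x hx
    exact hgrad x hx
  have hsplit : ∫ x in D.carrier, (MW k σ (infDist x S / R) ^ 2 +
      k ^ 2 * fW k σ (infDist x S / R) ^ 2) = (∫ x in D.carrier, MW k σ (infDist x S / R) ^ 2) +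
      k ^ 2 * ∫ x in D.carrier, v x ^ 2 := by
    rw [integral_add hMi (hv2i.const_mul _), integral_const_mul]
  have hsurf : ℓ ≤ ∫ x, v x ^ 2 ∂D.surface := by
    have h1 : ∫ x in S, v x ^ 2 ∂D.surface = ℓ := by
      rw [← h.surf, setIntegral_congr_fun h.closed.measurableSet
        (g := fun _ => (1 : ℝ)) (fun x hx => by simp only; rw [hv1 x hx, one_pow])]
      simp
    rw [← h1]
    refine setIntegral_le_integral ?_ (Filter.Eventually.of_forall fun x => by positivity)
    refine Integrable.of_bound (C := 1) (cv.pow 2).aestronglyMeasurable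
      (Filter.Eventually.of_forall fun x => ?_)
    rw [Real.norm_of_nonneg (by positivity)]
    have h1 := hvmem x
    exact pow_le_one₀ (le_trans (by positivity) h1.1) h1.2
  refine robin_lip D (C := k / R) (by positivity) hvL hpos ?_
  rw [integral_div] at hnum
  rw [hsplit] at hE0
  have h7 : (∫ x in D.carrier, MW k σ (infDist x S / R) ^ 2) / R ^ 2 +
      (k / R) ^ 2 * ∫ x in D.carrier, v x ^ 2 ≤ k * GG k / R * ℓ := by
    have h8 : (∫ x in D.carrier, MW k σ (infDist x S / R) ^ 2) / R ^ 2 +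
      (k / R) ^ 2 * ∫ x in D.carrier, v x ^ 2 = ((∫ x in D.carrier, MW k σ (infDist x S / R) ^ 2) +
      k ^ 2 * ∫ x in D.carrier, v x ^ 2) / R ^ 2 := by
      field_simp
    rw [h8, div_le_iff₀ (by positivity)]
    refine hE0.trans (le_of_eq ?_)
    field_simp
  have h9 : k * GG k / R * ℓ ≤ k * GG k / R * ∫ x, v x ^ 2 ∂D.surface :=
    mul_le_mul_of_nonneg_left hsurf (by positivity)
  linarith

/-- Let `k₁ > 0` and `0 ≤ σ₁ < 1` with `∫_{σ₁}^1 rr (k₁ s) ds ≤ (2 - σ₁) rr (k₁ σ₁)`. -/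
theorem planar_gen {k₁ σ₁ : ℝ} (hσ : 0 ≤ σ₁) (hσ1 : σ₁ < 1)
    (hW : ∫ s in σ₁..1, rr (k₁ * s) ≤ (2 - σ₁) * rr (k₁ * σ₁)) (J : JordanBoundary D)
    {i : Fin J.N} (hi : ¬ Bornology.IsBounded (J.comp i)) (hR : 0 < R)
    (hvol : volume.real D.carrier = Real.pi * R ^ 2)
    (hL : 2 * Real.pi * R * (1 + σ₁ ^ 2 / (2 * (1 - σ₁))) ≤ D.surface.real (J.comp i)) {k : ℝ}
    (hk : 0 < k) (hkk : k ≤ k₁) :
    D.robin (-(k * GG k / R)) ≤ ((-(k / R) ^ 2 : ℝ) : EReal) := by
  have hpi := Real.pi_pos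
  obtain ⟨r, h⟩ := exists_outer J hi
  set ℓ := D.surface.real (J.comp i) with hℓ
  have hone : 0 < 1 - σ₁ := by linarith
  obtain ⟨σ, hs1, hs2, hs⟩ := exists_cut (a := (ℓ / R - 2 * Real.pi) / Real.pi) hσ hσ1 (by
    rw [le_div_iff₀ hpi, le_sub_iff_add_le, le_div_iff₀ hR]
    refine le_trans (le_of_eq ?_) hL
    field_simp
    ring)
  have hlen : ℓ / R - 2 * Real.pi = Real.pi * σ ^ 2 / (1 - σ) := by
    rw [div_eq_iff hpi.ne'] at hs
    rw [hs]
    ring
  exact planar_core h hR hvol hk (hσ.trans hs1) hs2 hlen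
    (W0_mono hσ hs1 hs2 hk hkk hW)

theorem outer_len (h : Outer D S ℓ r) (hR : 0 < R)
    (hvol : volume.real D.carrier = Real.pi * R ^ 2) : 2 * Real.pi * R ≤ ℓ := by
  have h1 : volume.real D.carrier ≤ volume.real Sᶜ :=
    measureReal_mono h.sub h.bdd.measure_lt_top.ne
  have h2 := h.vol
  rw [hvol] at h1
  have h3 : Real.pi * R ^ 2 ≤ ℓ * r - Real.pi * r ^ 2 := h1.trans h2
  have h4 : Real.pi ≤ ℓ / R * (r / R) - Real.pi * (r / R) ^ 2 := by
    have h5 : ℓ / R * (r / R) - Real.pi * (r / R) ^ 2 = (ℓ * r - Real.pi * r ^ 2) / R ^ 2 := by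
      field_simp
    rw [h5, le_div_iff₀ (by positivity)]
    exact h3
  have h6 := geom_L (div_pos h.rpos hR) h4
  rwa [le_div_iff₀ hR] at h6

/-- The disc maximises the first Robin eigenvalue among all planar domains of its area, with any
number of holes, for `- (9/4) GG (9/4) ≤ α R < 0`. -/
theorem planar_main (J : JordanBoundary D) (hR : 0 < R)
    (hvol : volume D.carrier = volume (ball (0 : E 2) R)) {α : ℝ} (hα : α < 0)
    (hα1 : -(9 / 4 * GG (9 / 4)) / R ≤ α) :
    D.robin α ≤ (ballDomain 2 (by norm_num) R hR).robin α := by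
  obtain ⟨i, hi⟩ := exists_unbdd J
  have hvol' : volume.real D.carrier = Real.pi * R ^ 2 := by
    rw [Measure.real, hvol, EuclideanSpace.volume_ball_fin_two, ENNReal.toReal_mul,
      ENNReal.toReal_pow, ENNReal.toReal_ofReal hR.le]
    simp [mul_comm, Real.pi_pos.le]
  obtain ⟨k, hk, hkβ⟩ := exists_k (β := R * (-α)) (by nlinarith)
  have hkk : k ≤ 9 / 4 := by
    rw [k_mono hk (by norm_num), hkβ]
    rw [div_le_iff₀ hR] at hα1
    linarith
  obtain ⟨r, h⟩ := exists_outer J hi
  have hL := outer_len h hR hvol'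
  have h1 := planar_gen (le_refl (0 : ℝ)) zero_lt_one Pool.Agent.RC.W0_num1.le J hi hR hvol'
    (by simpa using hL) hk hkk
  have h2 := robin_ball_scale hR hk
  have e : -(k * GG k / R) = α := by
    rw [hkβ]
    field_simp
  rw [e] at h1 h2
  exact h1.trans h2

end Pool.Agent.RP
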